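import Pool.Agent.W810.KP.PSumA
import Pool.Agent.H12R2.Sep.LocP

/-! `S_psum` from `S_arm`, `S_loc3`, `S_ring`, `S_ring0`. -/

namespace Pool.Agent.W810.KP.PS

open H974 H12S H973N Finset

theorem rp2 (x : ℝ) (i : ℕ) : ((2:ℝ) ^ i) ^ x = ((2:ℝ) ^ x) ^ i := by
  rw [← Real.rpow_natCast, ← Real.rpow_mul (by norm_num), mul_comm, Real.rpow_mul (by norm_num),
    Real.rpow_natCast]

theorem ex_scale (y : ℕ) (hy : 1 ≤ y) (x : ℤ) (h : 64 * (y:ℤ) < x) :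
    ∃ j : ℕ, 64 * ((2:ℤ) ^ j * y) < x ∧ x ≤ 128 * ((2:ℤ) ^ j * y) := by
  classical
  have hex : ∃ j : ℕ, x ≤ 128 * ((2:ℤ) ^ j * y) := by
    refine ⟨x.toNat, ?_⟩
    have h1 : x.toNat < 2 ^ x.toNat := Nat.lt_two_pow_self
    have h2 : (x.toNat : ℤ) < 2 ^ x.toNat := by exact_mod_cast h1
    have h3 : x ≤ x.toNat := Int.self_le_toNat x
    have h4 : (1:ℤ) ≤ y := by exact_mod_cast hy
    nlinarith [pow_pos (show (0:ℤ) < 2 by norm_num) x.toNat]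
  refine ⟨Nat.find hex, ?_, Nat.find_spec hex⟩
  rcases Nat.eq_zero_or_pos (Nat.find hex) with h0 | h0
  · rw [h0]; simpa using h
  · have h1 := Nat.find_min hex (Nat.sub_lt h0 one_pos)
    push Not at h1
    have h2 : (2:ℤ) ^ (Nat.find hex) = 2 * 2 ^ (Nat.find hex - 1) := by
      conv_lhs => rw [show Nat.find hex = (Nat.find hex - 1) + 1 by omega]
      rw [pow_succ]; ring
    rw [h2]
    linarith

theorem ex_scale2 (I : ℕ) (d : ℤ) (h : 4 ≤ d) (hI : d < 8 * (2:ℤ) ^ I) :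
    ∃ i : ℕ, i ≤ I ∧ 4 * (2:ℤ) ^ i ≤ d ∧ d < 8 * (2:ℤ) ^ i := by
  classical
  have hex : ∃ i : ℕ, d < 8 * (2:ℤ) ^ i := ⟨I, hI⟩
  refine ⟨Nat.find hex, Nat.find_min' hex hI, ?_, Nat.find_spec hex⟩
  rcases Nat.eq_zero_or_pos (Nat.find hex) with h0 | h0
  · rw [h0]; simpa using h
  · have h1 := Nat.find_min hex (Nat.sub_lt h0 one_pos)
    push Not at h1
    have h2 : (2:ℤ) ^ (Nat.find hex) = 2 * 2 ^ (Nat.find hex - 1) := by
      conv_lhs => rw [show Nat.find hex = (Nat.find hex - 1) + 1 by omega]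
      rw [pow_succ]; ring
    rw [h2]
    linarith

/-- Four-arm bound at the capped radius. -/
theorem rbound {q A ε : ℝ} {n Λ w : ℕ} (hA : 1 ≤ A) (hε : 0 < ε) (hε1 : ε ≤ 1 / 16)
    (ha : ∀ k : ℕ, 1 ≤ k → k ≤ n → a4 q k ≤ A * (k:ℝ) ^ (-(5/4) + ε)) (hn : 1 ≤ n) (hnΛ : n ≤ Λ)
    (hw : 1 ≤ w) (hwΛ : w ≤ Λ) :
    a4 q (min w n) ≤ A * ((w:ℝ) ^ (-(5/4) + ε) * ((Λ:ℝ) / n) ^ 2) := by
  have h1 : 1 ≤ min w n := le_min hw hn
  refine (ha _ h1 (min_le_right _ _)).trans ?_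
  refine mul_le_mul_of_nonneg_left ?_ (by linarith)
  have n0 : (0:ℝ) < n := by exact_mod_cast hn
  have w0 : (0:ℝ) < w := by exact_mod_cast hw
  have L0 : (0:ℝ) < Λ := by exact_mod_cast (lt_of_lt_of_le (by omega : 0 < n) hnΛ)
  have hnL : (n:ℝ) ≤ Λ := by exact_mod_cast hnΛ
  have hwL : (w:ℝ) ≤ Λ := by exact_mod_cast hwΛ
  have hle : (w:ℝ) * (n / Λ) ≤ (min w n : ℕ) := by
    rcases le_total w n with h | h
    · rw [min_eq_left h]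
      have : (n:ℝ) / Λ ≤ 1 := (div_le_one L0).2 hnL
      nlinarith
    · rw [min_eq_right h]
      rw [← mul_div_assoc, div_le_iff₀ L0]
      nlinarith
  have e1 : ((min w n : ℕ) : ℝ) ^ (-(5/4) + ε) ≤ ((w:ℝ) * (n / Λ)) ^ (-(5/4) + ε) :=
    Real.rpow_le_rpow_of_nonpos (by positivity) hle (by linarith)
  refine e1.trans ?_
  rw [Real.mul_rpow w0.le (by positivity)]
  refine mul_le_mul_of_nonneg_left ?_ (by positivity)
  have e2 : ((n:ℝ) / Λ) ^ (-(5/4) + ε) = ((Λ:ℝ) / n) ^ (5/4 - ε) := by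
    rw [show (n:ℝ) / Λ = ((Λ:ℝ) / n)⁻¹ by rw [inv_div], Real.inv_rpow (by positivity),
      ← Real.rpow_neg (by positivity)]
    congr 1
    ring
  rw [e2, ← Real.rpow_natCast]
  refine Real.rpow_le_rpow_of_exponent_le ((one_le_div n0).2 hnL) ?_
  push_cast
  linarith

/-- The ball around an edge of the inner box. -/
theorem ball_sub {M k : ℕ} {e : Edg} (he : e ∈ boxE (M / 4 * 3)) (hk : 16 * k ≤ M) :
    blk (bp e) k ⊆ boxE M := by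
  have h := NP.RE_weak he
  unfold blk bp boxE
  apply RE_subset <;> omega


theorem sum2_add (U : Finset Edg) (f g : Edg → Edg → ℝ) :
    ∑ x ∈ U, ∑ y ∈ U, (f x y + g x y) = (∑ x ∈ U, ∑ y ∈ U, f x y) + ∑ x ∈ U, ∑ y ∈ U, g x y := by
  rw [← sum_add_distrib]
  exact sum_congr rfl fun _ _ => sum_add_distrib

theorem sum2_sum (U : Finset Edg) {ι : Type*} (K : Finset ι) (f : ι → Edg → Edg → ℝ) :
    ∑ x ∈ U, ∑ y ∈ U, ∑ k ∈ K, f k x y = ∑ k ∈ K, ∑ x ∈ U, ∑ y ∈ U, f k x y := by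
  rw [sum_congr rfl fun x _ => sum_comm, sum_comm]

end Pool.Agent.W810.KP.PS

namespace Pool.Agent.W810.KP

open H974 H12S H973N Finset PS

set_option maxHeartbeats 4000000 in
theorem psum (hA : S_arm) (hL : S_loc3) (hR : S_ring) (hR0 : S_ring0) : S_psum := by
  intro κ hκ
  obtain ⟨C1, hC1, hR⟩ := hR κ hκ
  obtain ⟨C0, hC0, hR0⟩ := hR0 κ hκ
  refine ⟨3600 + 324 * 80 ^ 4 + 3261636 + 9 * C0 + 9 * 19236996 + 81 * C1, by positivity, ?_⟩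
  intro q n hW A ε hA1 hε hε1 ha Λ M hn hnΛ hM hfar β hβ
  have h0 : 0 ≤ q := hW.q0
  have h1 : q ≤ 1 := hW.q1
  have ok : Ok (fun _ : Edg => q) := okq h0 h1
  set U := boxE (M / 4 * 3) with hU
  set S := boxE M with hS
  set P : Edg → Edg → ℝ := fun g h => PQ q S (T3 β g h) with hP
  have P0 : ∀ g h, 0 ≤ P g h := fun g h => Pr_nonneg ok _ _
  have P1 : ∀ g h, P g h ≤ 1 := fun g h => Pr_le_one ok _ _
  have nR : (1000:ℝ) ≤ n := by exact_mod_cast hn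
  have n0 : (0:ℝ) < n := by linarith
  have LR : (n:ℝ) ≤ Λ := by exact_mod_cast hnΛ
  have L0 : (0:ℝ) < Λ := by linarith
  have hq1 : 1 ≤ (Λ:ℝ) / n := (one_le_div n0).2 LR
  have hA0 : 0 < A := by linarith
  -- the scale of the window
  set I : ℕ := Nat.log 2 (n / 40) with hI
  have hI1 : 2 ^ I ≤ n / 40 := Nat.pow_log_le_self 2 (by omega)
  have hI2 : n / 40 < 2 ^ (I + 1) := Nat.lt_pow_succ_log_self (by norm_num) _
  have hI3 : 40 * 2 ^ I ≤ n := by omega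
  have hI4 : n < 80 * 2 ^ I := by
    rw [pow_succ] at hI2
    omega
  have hpi : ∀ i ≤ I, 40 * 2 ^ i ≤ n := fun i hi =>
    (Nat.mul_le_mul_left 40 (Nat.pow_le_pow_right (by norm_num) hi)).trans hI3
  set Y : ℝ := A ^ 3 * (n:ℝ) ^ (1/4 + 3 * ε) * ((Λ:ℝ) / n) ^ 4 with hY
  have hnp : 1 ≤ (n:ℝ) ^ (1/4 + 3 * ε) := Real.one_le_rpow (by linarith) (by linarith)
  have hA3 : 1 ≤ A ^ 3 := one_le_pow₀ hA1
  have hq4 : 1 ≤ ((Λ:ℝ) / n) ^ 4 := one_le_pow₀ hq1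
  have hY1 : 1 ≤ Y := by
    rw [hY]
    exact one_le_mul_of_one_le_of_one_le (one_le_mul_of_one_le_of_one_le hA3 hnp) hq4
  -- (far)
  have hF : ∑ g ∈ U, ∑ h ∈ U, ind (Iso β g h ∧ (Λ:ℤ) < dst β g) * P g h ≤ 3600 := by
    have s1 : ∀ g ∈ U, ∑ h ∈ U, ind (Iso β g h ∧ (Λ:ℤ) < dst β g) * P g h ≤
        18 * (ind (1 ≤ dst β g) * ((dst β g : ℝ) ^ 4)⁻¹) := by
      intro g hg
      by_cases hb : (Λ:ℤ) < dst β g
      · obtain ⟨b, hbe⟩ : ∃ b : ℕ, dst β g = b := ⟨(dst β g).toNat, by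
          have := dst_nonneg β g; omega⟩
        have hbL : Λ < b := by
          rw [hbe] at hb; exact_mod_cast hb
        have b0 : (0:ℝ) < b := by
          have : 0 < b := by omega
          exact_mod_cast this
        have b1 : (1:ℝ) ≤ b := by
          have : 1 ≤ b := by omega
          exact_mod_cast this
        have s2 : ∀ h ∈ U, ind (Iso β g h ∧ (Λ:ℤ) < dst β g) * P g h ≤
            ind (dst g h ≤ b) * ((b:ℝ) ^ 6)⁻¹ := by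
          intro h hh
          by_cases hi : Iso β g h
          · rw [ind_of (show Iso β g h ∧ (Λ:ℤ) < dst β g from ⟨hi, hb⟩), ind_of (by
              rw [← hbe]; exact hi.2.2.2.1), one_mul, one_mul]
            have h2 : dst β g ≤ dst β h + dst g h := by
              have := dst_tri β h g
              rwa [dst_comm h g] at this
            have h3 := hi.2.2.2.2
            refine (hA q h0 h1 S β g h (b / 4) hi.2.2.1 (by rw [hbe]; omega) ?_).trans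
              (hfar b hbL.le)
            rw [hbe] at h2
            omega
          · rw [ind_not_of (fun h => hi h.1), zero_mul]
            exact mul_nonneg (ind_nonneg _) (by positivity)
        refine (sum_le_sum s2).trans ?_
        rw [← sum_mul, hbe, ind_of (by omega : (1:ℤ) ≤ b), one_mul]
        have h4 := count U g b
        calc (∑ h ∈ U, ind (dst g h ≤ b)) * ((b:ℝ) ^ 6)⁻¹
            ≤ (2 * (2 * (b:ℝ) + 1) ^ 2) * ((b:ℝ) ^ 6)⁻¹ :=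
              mul_le_mul_of_nonneg_right h4 (by positivity)
          _ ≤ (18 * (b:ℝ) ^ 2) * ((b:ℝ) ^ 6)⁻¹ := by
              refine mul_le_mul_of_nonneg_right ?_ (by positivity)
              nlinarith
          _ = 18 * ((b:ℝ) ^ 4)⁻¹ := by
              field_simp
          _ = _ := by push_cast; ring
      · have : ∀ h ∈ U, ind (Iso β g h ∧ (Λ:ℤ) < dst β g) * P g h = 0 := by
          intro h _
          rw [ind_not_of (fun h => hb h.2), zero_mul]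
        rw [sum_congr rfl this, sum_const_zero]
        exact mul_nonneg (by norm_num) (mul_nonneg (ind_nonneg _) (by positivity))
    refine (sum_le_sum s1).trans ?_
    rw [← mul_sum]
    have := inv_four U β
    linarith
  -- (cap)
  have hball : ∀ e ∈ U, ∀ k : ℕ, 16 * k ≤ M → blk (bp e) k ⊆ S := fun e he k hk =>
    ball_sub he hk
  have hCap : ∑ g ∈ U, ∑ h ∈ U, ind (Iso β g h ∧ dst β g ≤ Λ ∧ 8 * (2:ℤ) ^ I ≤ dst g h) * P g h ≤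
      324 * 80 ^ 4 * Y := by
    have hk0 : 1 ≤ 2 ^ I := Nat.one_le_two_pow
    have hkM : 16 * 2 ^ I ≤ M := by omega
    have k1 : (1:ℤ) ≤ (2:ℤ) ^ I := by exact_mod_cast hk0
    refine (dcount U β Λ Λ _ P (B := a4 q (2 ^ I) ^ 3) (pow_nonneg (LP_a4_nonneg h0 h1 _) 3)
      ?_ ?_).trans ?_
    · rintro g hg h hh ⟨hi, h2, h3⟩
      obtain ⟨_, _, _, h4, h5⟩ := hi
      refine hL q h0 h1 S β g h (2 ^ I) hk0 ?_ ?_ ?_ (hball β hβ _ hkM) (hball g hg _ hkM)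
        (hball h hh _ hkM)
      · push_cast; linarith
      · push_cast; linarith
      · push_cast; linarith
    · rintro g h ⟨hi, h2, h3⟩
      exact ⟨h2, hi.2.2.2.1.trans h2⟩
    · have c1 : (2 * (2 * (Λ:ℝ) + 1) ^ 2) ≤ 18 * (Λ:ℝ) ^ 2 := by nlinarith
      have x0 : (0:ℝ) < (2:ℝ) ^ I := by positivity
      have c2 : a4 q (2 ^ I) ≤ A * ((2:ℝ) ^ I) ^ (-(5/4) + ε) := by
        have := ha (2 ^ I) hk0 (by omega)
        push_cast at this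
        exact this
      have c3 : ((2:ℝ) ^ I) ^ (-(5/4) + ε) ≤ ((n:ℝ) / 80) ^ (-(5/4) + ε) := by
        refine Real.rpow_le_rpow_of_nonpos (by positivity) ?_ (by linarith)
        rw [div_le_iff₀ (by norm_num)]
        have : (n:ℝ) ≤ 80 * 2 ^ I := by exact_mod_cast hI4.le
        linarith
      have c4 : a4 q (2 ^ I) ^ 3 ≤ (A * ((n:ℝ) / 80) ^ (-(5/4) + ε)) ^ 3 :=
        pow_le_pow_left₀ (LP_a4_nonneg h0 h1 _)
          (c2.trans (mul_le_mul_of_nonneg_left c3 hA0.le)) 3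
      have c5 : (((n:ℝ) / 80) ^ (-(5/4) + ε)) ^ 3 ≤ 80 ^ 4 * ((n:ℝ) ^ (1/4 + 3 * ε) * ((n:ℝ) ^ 4)⁻¹) := by
        have e1 : (((n:ℝ) / 80) ^ (-(5/4) + ε)) ^ 3 = ((n:ℝ) / 80) ^ (-(15/4) + 3 * ε) := by
          rw [← Real.rpow_natCast, ← Real.rpow_mul (by positivity)]
          congr 1
          push_cast
          ring
        have e2 : ((n:ℝ) / 80) ^ (-(15/4) + 3 * ε) =
            (n:ℝ) ^ (-(15/4) + 3 * ε) * (80:ℝ) ^ (15/4 - 3 * ε) := by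
          rw [Real.div_rpow n0.le (by norm_num), div_eq_mul_inv, ← Real.rpow_neg (by norm_num)]
          congr 2
          ring
        have e3 : (80:ℝ) ^ (15/4 - 3 * ε) ≤ 80 ^ 4 := by
          rw [← Real.rpow_natCast]
          exact Real.rpow_le_rpow_of_exponent_le (by norm_num) (by push_cast; linarith)
        have e4 : (n:ℝ) ^ (-(15/4) + 3 * ε) = (n:ℝ) ^ (1/4 + 3 * ε) * ((n:ℝ) ^ 4)⁻¹ := by
          rw [← Real.rpow_natCast, ← Real.rpow_neg n0.le, ← Real.rpow_add n0]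
          congr 1
          push_cast
          ring
        rw [e1, e2, e4]
        have : 0 ≤ (n:ℝ) ^ (1/4 + 3 * ε) * ((n:ℝ) ^ 4)⁻¹ := by positivity
        nlinarith
      calc (2 * (2 * (Λ:ℝ) + 1) ^ 2) * (2 * (2 * (Λ:ℝ) + 1) ^ 2) * a4 q (2 ^ I) ^ 3
          ≤ (18 * (Λ:ℝ) ^ 2) * (18 * (Λ:ℝ) ^ 2) * (A * ((n:ℝ) / 80) ^ (-(5/4) + ε)) ^ 3 := by
            refine mul_le_mul (mul_le_mul c1 c1 (by positivity) (by positivity)) c4
              (pow_nonneg (LP_a4_nonneg h0 h1 _) 3) (by positivity)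
        _ = 324 * (Λ:ℝ) ^ 4 * A ^ 3 * (((n:ℝ) / 80) ^ (-(5/4) + ε)) ^ 3 := by ring
        _ ≤ 324 * (Λ:ℝ) ^ 4 * A ^ 3 * (80 ^ 4 * ((n:ℝ) ^ (1/4 + 3 * ε) * ((n:ℝ) ^ 4)⁻¹)) :=
            mul_le_mul_of_nonneg_left c5 (by positivity)
        _ = 324 * 80 ^ 4 * Y := by
            rw [hY, div_pow]
            field_simp
  -- (near, very close)
  have hN0 : ∑ g ∈ U, ∑ h ∈ U, ind (dst β g ≤ (64:ℕ) ∧ dst g h ≤ (3:ℕ)) * P g h ≤ 3261636 := by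
    refine (dcount U β 64 3 _ P (B := 1) zero_le_one (fun g _ h _ _ => P1 g h)
      (fun g h hh => hh)).trans ?_
    norm_num
  -- (ring, very close)
  have hRing0 : ∀ j : ℕ, ∑ g ∈ U, ∑ h ∈ U, ind ((g ≠ h ∧ dst g h ≤ 3 ∧
      64 * (2 ^ j : ℤ) < dst β g ∧ dst β g ≤ 128 * (2 ^ j : ℤ)) ∧ dst β g ≤ Λ) * P g h ≤
      C0 * (A * ((Λ:ℝ) / n) ^ 2) * ((2:ℝ) ^ (-(1/4) + ε)) ^ j := by
    intro j
    by_cases hj : 2 ^ j ≤ Λ
    · have r1 : 1 ≤ min (2 ^ j) n := le_min Nat.one_le_two_pow (by omega)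
      have h3 := hR0 q n hW (by omega) S U β j (min (2 ^ j) n) r1 (min_le_left _ _)
        (hball β hβ _ (by have := min_le_right (2 ^ j) n; omega))
        (fun g hg => hball g hg _ (by omega))
      have h4 : ∑ g ∈ U, ∑ h ∈ U, ind ((g ≠ h ∧ dst g h ≤ 3 ∧
          64 * (2 ^ j : ℤ) < dst β g ∧ dst β g ≤ 128 * (2 ^ j : ℤ)) ∧ dst β g ≤ Λ) * P g h ≤
          ∑ g ∈ U, ∑ h ∈ U, ind (g ≠ h ∧ dst g h ≤ 3 ∧
          64 * (2 ^ j : ℤ) < dst β g ∧ dst β g ≤ 128 * (2 ^ j : ℤ)) * P g h :=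
        sum_le_sum fun g _ => sum_le_sum fun h _ =>
          mul_le_mul_of_nonneg_right (ind_mono fun h => h.1) (P0 g h)
      refine h4.trans (h3.trans ?_)
      have h5 := rbound (q := q) (w := 2 ^ j) hA1 hε hε1 ha (by omega) hnΛ Nat.one_le_two_pow hj
      push_cast at h5
      have x0 : (0:ℝ) < (2:ℝ) ^ j := by positivity
      have e1 : ((2:ℝ) ^ (-(1/4) + ε)) ^ j = ((2:ℝ) ^ j) ^ (-(5/4) + ε) * 2 ^ j := by
        rw [← rp2]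
        conv_rhs => rw [← Real.rpow_one ((2:ℝ) ^ j), ← Real.rpow_mul x0.le]
        rw [← Real.rpow_add x0]
        congr 1
        ring
      rw [e1]
      calc C0 * a4 q (min (2 ^ j) n) * 2 ^ j
          ≤ C0 * (A * (((2:ℝ) ^ j) ^ (-(5/4) + ε) * ((Λ:ℝ) / n) ^ 2)) * 2 ^ j := by
            refine mul_le_mul_of_nonneg_right ?_ x0.le
            exact mul_le_mul_of_nonneg_left h5 hC0.le
        _ = _ := by ring
    · have : ∀ g ∈ U, ∀ h ∈ U, ind ((g ≠ h ∧ dst g h ≤ 3 ∧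
          64 * (2 ^ j : ℤ) < dst β g ∧ dst β g ≤ 128 * (2 ^ j : ℤ)) ∧ dst β g ≤ Λ) * P g h = 0 := by
        intro g _ h _
        rw [ind_not_of, zero_mul]
        rintro ⟨⟨_, _, h3, _⟩, h5⟩
        push Not at hj
        have hj' : (Λ:ℤ) < 2 ^ j := by exact_mod_cast hj
        omega
      rw [sum_congr rfl fun g hg => sum_congr rfl fun h hh => this g hg h hh]
      simp only [sum_const_zero]
      positivity
  -- (near)
  have hN : ∀ i ≤ I, ∑ g ∈ U, ∑ h ∈ U, ind (Iso β g h ∧ 4 * (2:ℤ) ^ i ≤ dst g h ∧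
      dst g h < 8 * (2:ℤ) ^ i ∧ dst β g ≤ 64 * (2:ℤ) ^ i) * P g h ≤
      19236996 * A ^ 3 * ((2:ℝ) ^ (1/4 + 3 * ε)) ^ i := by
    intro i hi
    have hk0 : 1 ≤ 2 ^ i := Nat.one_le_two_pow
    have hki := hpi i hi
    have hkM : 16 * 2 ^ i ≤ M := by omega
    have k1 : (1:ℤ) ≤ (2:ℤ) ^ i := by exact_mod_cast hk0
    refine (dcount U β (64 * 2 ^ i) (8 * 2 ^ i) _ P (B := a4 q (2 ^ i) ^ 3)
      (pow_nonneg (LP_a4_nonneg h0 h1 _) 3) ?_ ?_).trans ?_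
    · rintro g hg h hh ⟨hi, h2, h3, h6⟩
      obtain ⟨_, _, _, h4, h5⟩ := hi
      refine hL q h0 h1 S β g h (2 ^ i) hk0 ?_ ?_ ?_ (hball β hβ _ hkM) (hball g hg _ hkM)
        (hball h hh _ hkM)
      · push_cast; linarith
      · push_cast; linarith
      · push_cast; linarith
    · rintro g h ⟨hi, h2, h3, h6⟩
      push_cast
      exact ⟨h6, h3.le⟩
    · push_cast
      have x0 : (0:ℝ) < (2:ℝ) ^ i := by positivity
      have x1 : (1:ℝ) ≤ (2:ℝ) ^ i := one_le_pow₀ (by norm_num)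
      have c2 : a4 q (2 ^ i) ≤ A * ((2:ℝ) ^ i) ^ (-(5/4) + ε) := by
        have := ha (2 ^ i) hk0 (by omega)
        push_cast at this
        exact this
      have c4 : a4 q (2 ^ i) ^ 3 ≤ (A * ((2:ℝ) ^ i) ^ (-(5/4) + ε)) ^ 3 :=
        pow_le_pow_left₀ (LP_a4_nonneg h0 h1 _) c2 3
      have e1 : (((2:ℝ) ^ i) ^ (-(5/4) + ε)) ^ 3 * ((2:ℝ) ^ i) ^ 4 = ((2:ℝ) ^ (1/4 + 3 * ε)) ^ i := by
        rw [← rp2, ← Real.rpow_natCast _ 3, ← Real.rpow_mul x0.le]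
        rw [← Real.rpow_natCast _ 4, ← Real.rpow_add x0]
        congr 1
        push_cast
        ring
      set x : ℝ := (2:ℝ) ^ i
      have c5 : 2 * (2 * (64 * x) + 1) ^ 2 ≤ 33282 * x ^ 2 := by nlinarith
      have c6 : 2 * (2 * (8 * x) + 1) ^ 2 ≤ 578 * x ^ 2 := by nlinarith
      calc (2 * (2 * (64 * x) + 1) ^ 2) * (2 * (2 * (8 * x) + 1) ^ 2) * a4 q (2 ^ i) ^ 3
          ≤ (33282 * x ^ 2) * (578 * x ^ 2) * (A * x ^ (-(5/4) + ε)) ^ 3 := by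
            refine mul_le_mul (mul_le_mul c5 c6 (by positivity) (by positivity)) c4
              (pow_nonneg (LP_a4_nonneg h0 h1 _) 3) (by positivity)
        _ = 19236996 * A ^ 3 * ((x ^ (-(5/4) + ε)) ^ 3 * x ^ 4) := by ring
        _ = _ := by rw [e1]
  -- (ring)
  have hRing : ∀ i ≤ I, ∀ j : ℕ, ∑ g ∈ U, ∑ h ∈ U, ind ((4 * (((2 ^ i : ℕ) : ℤ)) ≤ dst g h ∧
      dst g h < 8 * ((2 ^ i : ℕ) : ℤ) ∧ 64 * (2 ^ j * ((2 ^ i : ℕ) : ℤ)) < dst β g ∧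
      dst β g ≤ 128 * (2 ^ j * ((2 ^ i : ℕ) : ℤ))) ∧ dst β g ≤ Λ) * P g h ≤
      C1 * (A ^ 3 * ((Λ:ℝ) / n) ^ 2) * ((2:ℝ) ^ (1/4 + 3 * ε)) ^ i * ((2:ℝ) ^ (-(1/4) + ε)) ^ j := by
    intro i hi j
    have hk0 : 1 ≤ 2 ^ i := Nat.one_le_two_pow
    have hki := hpi i hi
    by_cases hj : 2 ^ j * 2 ^ i ≤ Λ
    · have hw1 : 1 ≤ 2 ^ j * 2 ^ i := Nat.mul_pos (by positivity) (by positivity)
      have r1 : 1 ≤ min (2 ^ j * 2 ^ i) n := le_min hw1 (by omega)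
      have h3 := hR q n hW S U β (2 ^ i) j (min (2 ^ j * 2 ^ i) n) hk0 hki r1 (min_le_left _ _)
        (hball β hβ _ (by have := min_le_right (2 ^ j * 2 ^ i) n; omega))
        (fun g hg => hball g hg _ (by omega))
      have h4 : ∑ g ∈ U, ∑ h ∈ U, ind ((4 * (((2 ^ i : ℕ) : ℤ)) ≤ dst g h ∧
          dst g h < 8 * ((2 ^ i : ℕ) : ℤ) ∧ 64 * (2 ^ j * ((2 ^ i : ℕ) : ℤ)) < dst β g ∧
          dst β g ≤ 128 * (2 ^ j * ((2 ^ i : ℕ) : ℤ))) ∧ dst β g ≤ Λ) * P g h ≤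
          ∑ g ∈ U, ∑ h ∈ U, ind (4 * (((2 ^ i : ℕ) : ℤ)) ≤ dst g h ∧
          dst g h < 8 * ((2 ^ i : ℕ) : ℤ) ∧ 64 * (2 ^ j * ((2 ^ i : ℕ) : ℤ)) < dst β g ∧
          dst β g ≤ 128 * (2 ^ j * ((2 ^ i : ℕ) : ℤ))) * P g h :=
        sum_le_sum fun g _ => sum_le_sum fun h _ =>
          mul_le_mul_of_nonneg_right (ind_mono fun h => h.1) (P0 g h)
      refine h4.trans (h3.trans ?_)
      have h5 := rbound (q := q) (w := 2 ^ j * 2 ^ i) hA1 hε hε1 ha (by omega) hnΛ hw1 hj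
      push_cast at h5 ⊢
      have x0 : (0:ℝ) < (2:ℝ) ^ i := by positivity
      have y0 : (0:ℝ) < (2:ℝ) ^ j := by positivity
      have c2 : a4 q (2 ^ i) ≤ A * ((2:ℝ) ^ i) ^ (-(5/4) + ε) := by
        have := ha (2 ^ i) hk0 (by omega)
        push_cast at this
        exact this
      have c4 : a4 q (2 ^ i) ^ 2 ≤ (A * ((2:ℝ) ^ i) ^ (-(5/4) + ε)) ^ 2 :=
        pow_le_pow_left₀ (LP_a4_nonneg h0 h1 _) c2 2
      have e1 : ((2:ℝ) ^ (1/4 + 3 * ε)) ^ i * ((2:ℝ) ^ (-(1/4) + ε)) ^ j =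
          ((2:ℝ) ^ i) ^ 4 * (((2:ℝ) ^ i) ^ (-(5/4) + ε)) ^ 2 *
            (((2:ℝ) ^ j * (2:ℝ) ^ i) ^ (-(5/4) + ε)) * 2 ^ j := by
        rw [← rp2, ← rp2, Real.mul_rpow y0.le x0.le]
        rw [← Real.rpow_natCast _ 2, ← Real.rpow_mul x0.le, ← Real.rpow_natCast ((2:ℝ) ^ i) 4]
        have e2 : ((2:ℝ) ^ j) ^ (-(1/4) + ε) = ((2:ℝ) ^ j) ^ (-(5/4) + ε) * 2 ^ j := by
          conv_rhs => rw [← Real.rpow_one ((2:ℝ) ^ j), ← Real.rpow_mul y0.le]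
          rw [← Real.rpow_add y0]
          congr 1
          ring
        have e3 : ((2:ℝ) ^ i) ^ (1/4 + 3 * ε) = ((2:ℝ) ^ i) ^ ((4:ℕ):ℝ) *
            ((2:ℝ) ^ i) ^ ((-(5/4) + ε) * ((2:ℕ):ℝ)) * ((2:ℝ) ^ i) ^ (-(5/4) + ε) := by
          rw [← Real.rpow_add x0, ← Real.rpow_add x0]
          congr 1
          push_cast
          ring
        rw [e2, e3]
        ring
      have a40 := LP_a4_nonneg h0 h1 (q := q) (min (2 ^ j * 2 ^ i) n)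
      calc C1 * ((2:ℝ) ^ i) ^ 4 * a4 q (2 ^ i) ^ 2 * a4 q (min (2 ^ j * 2 ^ i) n) * 2 ^ j
          ≤ C1 * ((2:ℝ) ^ i) ^ 4 * (A * ((2:ℝ) ^ i) ^ (-(5/4) + ε)) ^ 2 *
            (A * (((2:ℝ) ^ j * (2:ℝ) ^ i) ^ (-(5/4) + ε) * ((Λ:ℝ) / n) ^ 2)) * 2 ^ j := by
            refine mul_le_mul_of_nonneg_right ?_ y0.le
            refine mul_le_mul ?_ h5 a40 (by positivity)
            exact mul_le_mul_of_nonneg_left c4 (by positivity)
        _ = C1 * (A ^ 3 * ((Λ:ℝ) / n) ^ 2) * (((2:ℝ) ^ i) ^ 4 * (((2:ℝ) ^ i) ^ (-(5/4) + ε)) ^ 2 *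
            (((2:ℝ) ^ j * (2:ℝ) ^ i) ^ (-(5/4) + ε)) * 2 ^ j) := by ring
        _ = _ := by rw [← e1]; ring
    · have : ∀ g ∈ U, ∀ h ∈ U, ind ((4 * (((2 ^ i : ℕ) : ℤ)) ≤ dst g h ∧
          dst g h < 8 * ((2 ^ i : ℕ) : ℤ) ∧ 64 * (2 ^ j * ((2 ^ i : ℕ) : ℤ)) < dst β g ∧
          dst β g ≤ 128 * (2 ^ j * ((2 ^ i : ℕ) : ℤ))) ∧ dst β g ≤ Λ) * P g h = 0 := by
        intro g _ h _
        rw [ind_not_of, zero_mul]
        rintro ⟨⟨_, _, h3, _⟩, h5⟩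
        push Not at hj
        have hj' : (Λ:ℤ) < 2 ^ j * ((2 ^ i : ℕ) : ℤ) := by exact_mod_cast hj
        omega
      rw [sum_congr rfl fun g hg => sum_congr rfl fun h hh => this g hg h hh]
      simp only [sum_const_zero]
      positivity
  -- pointwise bound
  have pt : ∀ g h : Edg, ind (Iso β g h) * P g h ≤
      ind (Iso β g h ∧ (Λ:ℤ) < dst β g) * P g h +
      (ind (Iso β g h ∧ dst β g ≤ Λ ∧ 8 * (2:ℤ) ^ I ≤ dst g h) * P g h +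
      (ind (dst β g ≤ (64:ℕ) ∧ dst g h ≤ (3:ℕ)) * P g h +
      ((∑ j ∈ range Λ, ind ((g ≠ h ∧ dst g h ≤ 3 ∧
        64 * (2 ^ j : ℤ) < dst β g ∧ dst β g ≤ 128 * (2 ^ j : ℤ)) ∧ dst β g ≤ Λ) * P g h) +
      ((∑ i ∈ range (I + 1), ind (Iso β g h ∧ 4 * (2:ℤ) ^ i ≤ dst g h ∧
        dst g h < 8 * (2:ℤ) ^ i ∧ dst β g ≤ 64 * (2:ℤ) ^ i) * P g h) +
      (∑ i ∈ range (I + 1), ∑ j ∈ range Λ, ind ((4 * (((2 ^ i : ℕ) : ℤ)) ≤ dst g h ∧
        dst g h < 8 * ((2 ^ i : ℕ) : ℤ) ∧ 64 * (2 ^ j * ((2 ^ i : ℕ) : ℤ)) < dst β g ∧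
        dst β g ≤ 128 * (2 ^ j * ((2 ^ i : ℕ) : ℤ))) ∧ dst β g ≤ Λ) * P g h))))) := by
    intro g h
    have T : ∀ Q : Prop, 0 ≤ ind Q * P g h := fun Q => mul_nonneg (ind_nonneg _) (P0 g h)
    have T4 : 0 ≤ ∑ j ∈ range Λ, ind ((g ≠ h ∧ dst g h ≤ 3 ∧
        64 * (2 ^ j : ℤ) < dst β g ∧ dst β g ≤ 128 * (2 ^ j : ℤ)) ∧ dst β g ≤ Λ) * P g h :=
      sum_nonneg fun _ _ => T _
    have T5 : 0 ≤ ∑ i ∈ range (I + 1), ind (Iso β g h ∧ 4 * (2:ℤ) ^ i ≤ dst g h ∧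
        dst g h < 8 * (2:ℤ) ^ i ∧ dst β g ≤ 64 * (2:ℤ) ^ i) * P g h :=
      sum_nonneg fun _ _ => T _
    have T6 : 0 ≤ ∑ i ∈ range (I + 1), ∑ j ∈ range Λ, ind ((4 * (((2 ^ i : ℕ) : ℤ)) ≤ dst g h ∧
        dst g h < 8 * ((2 ^ i : ℕ) : ℤ) ∧ 64 * (2 ^ j * ((2 ^ i : ℕ) : ℤ)) < dst β g ∧
        dst β g ≤ 128 * (2 ^ j * ((2 ^ i : ℕ) : ℤ))) ∧ dst β g ≤ Λ) * P g h :=
      sum_nonneg fun _ _ => sum_nonneg fun _ _ => T _
    have hjL : ∀ (j y : ℕ), 1 ≤ y → 64 * ((2:ℤ) ^ j * y) < dst β g → dst β g ≤ Λ → j ∈ range Λ := by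
      intro j y hy h1 h2
      rw [mem_range]
      have h3 : j < 2 ^ j := Nat.lt_two_pow_self
      have h4 : (j:ℤ) < (2:ℤ) ^ j := by exact_mod_cast h3
      have h5 : (1:ℤ) ≤ y := by exact_mod_cast hy
      have h6 : (0:ℤ) < (2:ℤ) ^ j := by positivity
      have h7 : (2:ℤ) ^ j ≤ 2 ^ j * y := by nlinarith
      omega
    by_cases hi : Iso β g h
    · rw [ind_of hi, one_mul]
      by_cases hb : (Λ:ℤ) < dst β g
      · rw [ind_of (show Iso β g h ∧ (Λ:ℤ) < dst β g from ⟨hi, hb⟩), one_mul]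
        have t1 := T (Iso β g h ∧ dst β g ≤ Λ ∧ 8 * (2:ℤ) ^ I ≤ dst g h)
        have t2 := T (dst β g ≤ (64:ℕ) ∧ dst g h ≤ (3:ℕ))
        linarith
      · have hb' : dst β g ≤ Λ := not_lt.mp hb
        have t0 := T (Iso β g h ∧ (Λ:ℤ) < dst β g)
        by_cases hc : 8 * (2:ℤ) ^ I ≤ dst g h
        · rw [ind_of (show Iso β g h ∧ dst β g ≤ Λ ∧ 8 * (2:ℤ) ^ I ≤ dst g h from ⟨hi, hb', hc⟩),
            one_mul]
          have t2 := T (dst β g ≤ (64:ℕ) ∧ dst g h ≤ (3:ℕ))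
          linarith
        · have t1 := T (Iso β g h ∧ dst β g ≤ Λ ∧ 8 * (2:ℤ) ^ I ≤ dst g h)
          by_cases hd : dst g h ≤ 3
          · by_cases he : dst β g ≤ 64
            · rw [ind_of (show dst β g ≤ (64:ℕ) ∧ dst g h ≤ (3:ℕ) by
                push_cast; exact ⟨he, hd⟩), one_mul]
              linarith
            · have t2 := T (dst β g ≤ (64:ℕ) ∧ dst g h ≤ (3:ℕ))
              obtain ⟨j, j1, j2⟩ := ex_scale 1 le_rfl (dst β g) (by push_cast; omega)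
              have hj := hjL j 1 le_rfl j1 hb'
              push_cast at j1 j2
              rw [mul_one] at j1 j2
              have hs := single_le_sum (f := fun j => ind ((g ≠ h ∧ dst g h ≤ 3 ∧
                64 * (2 ^ j : ℤ) < dst β g ∧ dst β g ≤ 128 * (2 ^ j : ℤ)) ∧ dst β g ≤ Λ) * P g h)
                (fun j _ => T _) hj
              rw [ind_of (show (g ≠ h ∧ dst g h ≤ 3 ∧ 64 * (2 ^ j : ℤ) < dst β g ∧
                dst β g ≤ 128 * (2 ^ j : ℤ)) ∧ dst β g ≤ Λ from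
                ⟨⟨hi.2.2.1, hd, j1, j2⟩, hb'⟩), one_mul] at hs
              linarith
          · have t2 := T (dst β g ≤ (64:ℕ) ∧ dst g h ≤ (3:ℕ))
            obtain ⟨i, i1, i2, i3⟩ := ex_scale2 I (dst g h) (by omega) (not_le.mp hc)
            have hir : i ∈ range (I + 1) := mem_range.mpr (by omega)
            by_cases he : dst β g ≤ 64 * (2:ℤ) ^ i
            · have hs := single_le_sum (f := fun i => ind (Iso β g h ∧ 4 * (2:ℤ) ^ i ≤ dst g h ∧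
                dst g h < 8 * (2:ℤ) ^ i ∧ dst β g ≤ 64 * (2:ℤ) ^ i) * P g h)
                (fun j _ => T _) hir
              rw [ind_of (show Iso β g h ∧ 4 * (2:ℤ) ^ i ≤ dst g h ∧
                dst g h < 8 * (2:ℤ) ^ i ∧ dst β g ≤ 64 * (2:ℤ) ^ i from
                ⟨hi, i2, i3, he⟩), one_mul] at hs
              linarith
            · obtain ⟨j, j1, j2⟩ := ex_scale (2 ^ i) Nat.one_le_two_pow (dst β g)
                (by push_cast; exact not_le.mp he)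
              have hj := hjL j (2 ^ i) Nat.one_le_two_pow j1 hb'
              have hs1 := single_le_sum (f := fun j => ind ((4 * (((2 ^ i : ℕ) : ℤ)) ≤ dst g h ∧
                dst g h < 8 * ((2 ^ i : ℕ) : ℤ) ∧ 64 * (2 ^ j * ((2 ^ i : ℕ) : ℤ)) < dst β g ∧
                dst β g ≤ 128 * (2 ^ j * ((2 ^ i : ℕ) : ℤ))) ∧ dst β g ≤ Λ) * P g h)
                (fun j _ => T _) hj
              have hs2 := single_le_sum (f := fun i => ∑ j ∈ range Λ,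
                ind ((4 * (((2 ^ i : ℕ) : ℤ)) ≤ dst g h ∧
                dst g h < 8 * ((2 ^ i : ℕ) : ℤ) ∧ 64 * (2 ^ j * ((2 ^ i : ℕ) : ℤ)) < dst β g ∧
                dst β g ≤ 128 * (2 ^ j * ((2 ^ i : ℕ) : ℤ))) ∧ dst β g ≤ Λ) * P g h)
                (fun i _ => sum_nonneg fun _ _ => T _) hir
              rw [ind_of (show (4 * (((2 ^ i : ℕ) : ℤ)) ≤ dst g h ∧
                dst g h < 8 * ((2 ^ i : ℕ) : ℤ) ∧ 64 * (2 ^ j * ((2 ^ i : ℕ) : ℤ)) < dst β g ∧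
                dst β g ≤ 128 * (2 ^ j * ((2 ^ i : ℕ) : ℤ))) ∧ dst β g ≤ Λ from
                ⟨⟨by push_cast; exact i2, by push_cast; exact i3, j1, j2⟩, hb'⟩), one_mul] at hs1
              linarith
    · rw [ind_not_of hi, zero_mul]
      have t1 := T (Iso β g h ∧ dst β g ≤ Λ ∧ 8 * (2:ℤ) ^ I ≤ dst g h)
      have t2 := T (dst β g ≤ (64:ℕ) ∧ dst g h ≤ (3:ℕ))
      have t3 := T (Iso β g h ∧ (Λ:ℤ) < dst β g)
      linarith
  -- summation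
  have hsum := sum_le_sum fun g (_ : g ∈ U) => sum_le_sum fun h (_ : h ∈ U) => pt g h
  rw [sum2_add, sum2_add, sum2_add, sum2_add, sum2_add, sum2_sum, sum2_sum, sum2_sum] at hsum
  have e6 : ∑ i ∈ range (I + 1), ∑ g ∈ U, ∑ h ∈ U, ∑ j ∈ range Λ,
      ind ((4 * (((2 ^ i : ℕ) : ℤ)) ≤ dst g h ∧
      dst g h < 8 * ((2 ^ i : ℕ) : ℤ) ∧ 64 * (2 ^ j * ((2 ^ i : ℕ) : ℤ)) < dst β g ∧
      dst β g ≤ 128 * (2 ^ j * ((2 ^ i : ℕ) : ℤ))) ∧ dst β g ≤ Λ) * P g h =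
      ∑ i ∈ range (I + 1), ∑ j ∈ range Λ, ∑ g ∈ U, ∑ h ∈ U,
      ind ((4 * (((2 ^ i : ℕ) : ℤ)) ≤ dst g h ∧
      dst g h < 8 * ((2 ^ i : ℕ) : ℤ) ∧ 64 * (2 ^ j * ((2 ^ i : ℕ) : ℤ)) < dst β g ∧
      dst β g ≤ 128 * (2 ^ j * ((2 ^ i : ℕ) : ℤ))) ∧ dst β g ≤ Λ) * P g h :=
    sum_congr rfl fun i _ => sum2_sum U (range Λ) _
  rw [e6] at hsum
  have gU : ∑ i ∈ range (I + 1), ((2:ℝ) ^ (1/4 + 3 * ε)) ^ i ≤ 9 * (n:ℝ) ^ (1/4 + 3 * ε) := by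
    refine (geom_up (two_rpow_quarter hε.le) I).trans ?_
    refine mul_le_mul_of_nonneg_left ?_ (by norm_num)
    rw [← rp2]
    refine Real.rpow_le_rpow (by positivity) ?_ (by positivity)
    have : 2 ^ I ≤ n := by omega
    exact_mod_cast this
  have gD : ∑ j ∈ range Λ, ((2:ℝ) ^ (-(1/4) + ε)) ^ j ≤ 9 :=
    geom_down (by positivity) (two_rpow_neg hε1) Λ
  have q2 : ((Λ:ℝ) / n) ^ 2 ≤ ((Λ:ℝ) / n) ^ 4 := pow_le_pow_right₀ hq1 (by norm_num)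
  have A13 : A ≤ A ^ 3 := by
    calc A = A ^ 1 := (pow_one A).symm
      _ ≤ A ^ 3 := pow_le_pow_right₀ hA1 (by norm_num)
  have b4 : ∑ j ∈ range Λ, ∑ g ∈ U, ∑ h ∈ U, ind ((g ≠ h ∧ dst g h ≤ 3 ∧
      64 * (2 ^ j : ℤ) < dst β g ∧ dst β g ≤ 128 * (2 ^ j : ℤ)) ∧ dst β g ≤ Λ) * P g h ≤
      9 * C0 * Y := by
    refine (sum_le_sum fun j _ => hRing0 j).trans ?_
    rw [← mul_sum]
    have e1 : A * ((Λ:ℝ) / n) ^ 2 ≤ Y := by
      rw [hY]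
      calc A * ((Λ:ℝ) / n) ^ 2 ≤ A ^ 3 * ((Λ:ℝ) / n) ^ 4 :=
            mul_le_mul A13 q2 (by positivity) (by positivity)
        _ = A ^ 3 * 1 * ((Λ:ℝ) / n) ^ 4 := by ring
        _ ≤ _ := by
            refine mul_le_mul_of_nonneg_right ?_ (by positivity)
            exact mul_le_mul_of_nonneg_left hnp (by positivity)
    calc C0 * (A * ((Λ:ℝ) / n) ^ 2) * ∑ j ∈ range Λ, ((2:ℝ) ^ (-(1/4) + ε)) ^ j
        ≤ C0 * Y * 9 := by
          refine mul_le_mul (mul_le_mul_of_nonneg_left e1 hC0.le) gD (by positivity) (by positivity)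
      _ = _ := by ring
  have b5 : ∑ i ∈ range (I + 1), ∑ g ∈ U, ∑ h ∈ U, ind (Iso β g h ∧ 4 * (2:ℤ) ^ i ≤ dst g h ∧
      dst g h < 8 * (2:ℤ) ^ i ∧ dst β g ≤ 64 * (2:ℤ) ^ i) * P g h ≤ 9 * 19236996 * Y := by
    refine (sum_le_sum fun i hi => hN i (by rw [mem_range] at hi; omega)).trans ?_
    rw [← mul_sum]
    have e1 : A ^ 3 * (n:ℝ) ^ (1/4 + 3 * ε) ≤ Y := by
      rw [hY]
      exact le_mul_of_one_le_right (by positivity) hq4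
    calc 19236996 * A ^ 3 * ∑ i ∈ range (I + 1), ((2:ℝ) ^ (1/4 + 3 * ε)) ^ i
        ≤ 19236996 * A ^ 3 * (9 * (n:ℝ) ^ (1/4 + 3 * ε)) :=
          mul_le_mul_of_nonneg_left gU (by positivity)
      _ = 9 * 19236996 * (A ^ 3 * (n:ℝ) ^ (1/4 + 3 * ε)) := by ring
      _ ≤ _ := mul_le_mul_of_nonneg_left e1 (by norm_num)
  have b6 : ∑ i ∈ range (I + 1), ∑ j ∈ range Λ, ∑ g ∈ U, ∑ h ∈ U,
      ind ((4 * (((2 ^ i : ℕ) : ℤ)) ≤ dst g h ∧
      dst g h < 8 * ((2 ^ i : ℕ) : ℤ) ∧ 64 * (2 ^ j * ((2 ^ i : ℕ) : ℤ)) < dst β g ∧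
      dst β g ≤ 128 * (2 ^ j * ((2 ^ i : ℕ) : ℤ))) ∧ dst β g ≤ Λ) * P g h ≤ 81 * C1 * Y := by
    have s1 : ∀ i ∈ range (I + 1), ∑ j ∈ range Λ, ∑ g ∈ U, ∑ h ∈ U,
        ind ((4 * (((2 ^ i : ℕ) : ℤ)) ≤ dst g h ∧
        dst g h < 8 * ((2 ^ i : ℕ) : ℤ) ∧ 64 * (2 ^ j * ((2 ^ i : ℕ) : ℤ)) < dst β g ∧
        dst β g ≤ 128 * (2 ^ j * ((2 ^ i : ℕ) : ℤ))) ∧ dst β g ≤ Λ) * P g h ≤
        C1 * (A ^ 3 * ((Λ:ℝ) / n) ^ 2) * 9 * ((2:ℝ) ^ (1/4 + 3 * ε)) ^ i := by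
      intro i hi
      refine (sum_le_sum fun j _ => hRing i (by rw [mem_range] at hi; omega) j).trans ?_
      rw [← mul_sum]
      have x0 : 0 ≤ C1 * (A ^ 3 * ((Λ:ℝ) / n) ^ 2) * ((2:ℝ) ^ (1/4 + 3 * ε)) ^ i := by positivity
      calc C1 * (A ^ 3 * ((Λ:ℝ) / n) ^ 2) * ((2:ℝ) ^ (1/4 + 3 * ε)) ^ i *
            ∑ j ∈ range Λ, ((2:ℝ) ^ (-(1/4) + ε)) ^ j
          ≤ C1 * (A ^ 3 * ((Λ:ℝ) / n) ^ 2) * ((2:ℝ) ^ (1/4 + 3 * ε)) ^ i * 9 :=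
            mul_le_mul_of_nonneg_left gD x0
        _ = _ := by ring
    refine (sum_le_sum s1).trans ?_
    rw [← mul_sum]
    calc C1 * (A ^ 3 * ((Λ:ℝ) / n) ^ 2) * 9 * ∑ i ∈ range (I + 1), ((2:ℝ) ^ (1/4 + 3 * ε)) ^ i
        ≤ C1 * (A ^ 3 * ((Λ:ℝ) / n) ^ 2) * 9 * (9 * (n:ℝ) ^ (1/4 + 3 * ε)) :=
          mul_le_mul_of_nonneg_left gU (by positivity)
      _ = 81 * C1 * (A ^ 3 * (n:ℝ) ^ (1/4 + 3 * ε) * ((Λ:ℝ) / n) ^ 2) := by ring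
      _ ≤ 81 * C1 * Y := by
          rw [hY]
          refine mul_le_mul_of_nonneg_left ?_ (by positivity)
          exact mul_le_mul_of_nonneg_left q2 (by positivity)
  have e0 : (3600 + 324 * 80 ^ 4 + 3261636 + 9 * C0 + 9 * 19236996 + 81 * C1) * A ^ 3 *
      (n:ℝ) ^ (1/4 + 3 * ε) * ((Λ:ℝ) / n) ^ 4 =
      (3600 + 324 * 80 ^ 4 + 3261636 + 9 * C0 + 9 * 19236996 + 81 * C1) * Y := by
    rw [hY]; ring
  rw [e0]
  refine hsum.trans ?_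
  have f1 : (3600:ℝ) ≤ 3600 * Y := by linarith
  have f2 : (3261636:ℝ) ≤ 3261636 * Y := by linarith
  calc _ ≤ 3600 + (324 * 80 ^ 4 * Y + (3261636 + (9 * C0 * Y + (9 * 19236996 * Y + 81 * C1 * Y)))) :=
        add_le_add hF (add_le_add hCap (add_le_add hN0 (add_le_add b4 (add_le_add b5 b6))))
    _ ≤ 3600 * Y + (324 * 80 ^ 4 * Y + (3261636 * Y + (9 * C0 * Y + (9 * 19236996 * Y + 81 * C1 * Y)))) :=
        add_le_add f1 (add_le_add le_rfl (add_le_add f2 le_rfl))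
    _ = _ := by ring

end Pool.Agent.W810.KP
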