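import Pool.Agent.W810.KP.Fin
import Pool.Agent.W810.KP.PSum
import Pool.Agent.W702.KP.KPSym
import Pool.Agent.W324.KPDer
import Pool.Agent.W702.KP.KPArm
import Pool.Agent.W22.KPLoc3
import Pool.Agent.W22.KPPair
import Pool.Agent.W34.KP.KPPair0
import Pool.Agent.W324.KPBlk
import Pool.Agent.W324.KPRing
import Pool.Agent.W965.KPRing0
import Pool.Agent.W814.KPTri
import Pool.Agent.W801.KP.KPPar
import Pool.Agent.W371.KP.KPLim
import Pool.Agent.W371.KP.KPLimb
import Pool.Agent.W853.KPDup
import Pool.Agent.W472.KPDuc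
import Pool.Agent.W698.KP.KPDua
import Pool.Agent.W669.KPCvx
import Pool.Agent.W669.KPLft
import Pool.Agent.W401.KP.KDer
import Pool.Agent.W933.KPKap
import Pool.Agent.H974R5.Exps

/-! All parts together. -/

namespace Pool.Agent.W810.KP

open H974 H12S H973N Finset MeasureTheory Filter Topology

theorem arm_zero_lim (q : ℝ) (h0 : 0 ≤ q) (h1 : q ≤ 1 / 2) :
    Tendsto (fun n : ℕ => arm q n) atTop (𝓝 0) := by
  obtain ⟨C, hC, h⟩ := H974.inp.arm (1 / 48) (by norm_num)
  have h2 : Tendsto (fun n : ℕ => C * (n:ℝ) ^ (-((1:ℝ) / 12))) atTop (𝓝 0) := by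
    have h3 : Tendsto (fun x : ℝ => x ^ (-((1:ℝ) / 12))) atTop (𝓝 0) :=
      tendsto_rpow_neg_atTop (by norm_num)
    have h4 := (h3.comp tendsto_natCast_atTop_atTop).const_mul C
    rw [mul_zero] at h4
    exact h4
  refine tendsto_of_tendsto_of_tendsto_of_le_of_le' tendsto_const_nhds h2 ?_ ?_
  · exact Eventually.of_forall fun n => arm_nonneg h0 (by linarith) n
  · filter_upwards [eventually_ge_atTop 1] with n hn
    have h5 := (h n hn).1
    have h6 := arm_mono_param h0 h1 (by norm_num) n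
    refine (h6.trans h5).trans (le_of_eq ?_)
    norm_num

theorem dua' : S_dua' := fun q b h0 h1 =>
  Pool.Agent.W698.KPDua.main Pool.Agent.W853.KPDup.main Pool.Agent.W472.KPDuc.main q b h0 h1
    (arm_zero_lim q h0 h1)

theorem s_par : S_par := by
  have h_sym := Pool.Agent.W702.KP.Sym.main
  have h_arm := Pool.Agent.W702.KP.ArmT.main
  have h_blk := Pool.Agent.W324.KPBlk.main
  exact Pool.Agent.W801.KP.main H974.inp (Pool.Agent.W814.KPTri.main h_sym h_arm
    (psum h_arm (Pool.Agent.W22.KPLoc3.main h_sym)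
      (Pool.Agent.W324.KPRing.main h_blk Pool.Agent.W22.KPPair.main)
      (Pool.Agent.W965.KPRing0.main h_blk Pool.Agent.W34.KPPair0.main)))

theorem final_all : Final :=
  final Pool.Agent.W324.KPDer.main s_par W371.KPLim.main Pool.Agent.W669.KPLft.main dua'
    Pool.Agent.W669.KPCvx.main
    (Pool.Agent.W933.KPKap.main Pool.Agent.W401.KP.main W371.KPLimb.main)

end Pool.Agent.W810.KP
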