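import Pool.Agent.H973R3.NC.NP

/-!
# Upper bound for the singular part of the mean cluster density of bond percolation on `ℤ²`

Definitions and the exact statements of the parts (project KP, problem MP_5f99b0_pr, seat helper810).

Notation of the library: `Edg = ℤ × ℤ × Bool` (`true`: horizontal), `src`, `tgt`, `Reach F u v`
(connected by edges of `F`), `PQ q S A` = probability of `A` for the random subset of the finite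
set `S` which contains every edge independently with probability `q`, `RE a b c d` = all edges of
the rectangle, `boxE n = RE (-n) n (-n) n`, `blk c ρ` = edges of the square of radius `ρ` around
`c`, `bp e` = base point, `dst e g` = sup-distance of the base points, `a4 q n` = four-arm
probability, `arm q n` = one-arm probability, `Win q κ n` = RSW window.
-/

namespace Pool.Agent.W810.KP

open H974 H12S H973N Finset MeasureTheory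

/-- The ends of `e` are connected in `F` without using `e`. -/
def Con (e : Edg) (F : Finset Edg) : Prop := Reach (↑(F.erase e) : Set Edg) (src e) (tgt e)

/-- Flipping `h` changes the pivotality of `g` for `Con e` (third difference of the number of
clusters at `e, g, h`). -/
def T3 (e g h : Edg) (F : Finset Edg) : Prop :=
  ¬ (Pf (Con e) g (insert h F) ↔ Pf (Con e) g (F.erase h))

/-- SYM: the third difference is symmetric. -/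
def S_sym : Prop := ∀ e g h : Edg, e ≠ g → e ≠ h → g ≠ h → ∀ F : Finset Edg,
  (T3 e g h F ↔ T3 g e h F) ∧ (T3 e g h F ↔ T3 e h g F)

/-- DER: first and second derivative of the probability of `Con e`. -/
def S_der : Prop := ∀ (S : Finset Edg) (e : Edg), e ∈ S → ∀ q : ℝ, 0 ≤ q → q ≤ 1 →
  HasDerivAt (fun q : ℝ => PQ q S (Con e)) (∑ g ∈ S.erase e, PQ q S (Pf (Con e) g)) q ∧
  ∃ D : ℝ, HasDerivAt (fun q : ℝ => ∑ g ∈ S.erase e, PQ q S (Pf (Con e) g)) D q ∧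
    |D| ≤ ∑ g ∈ S.erase e, ∑ h ∈ (S.erase e).erase g, PQ q S (T3 e g h)

/-- ARM: the edge `e` is far from both other edges. -/
def S_arm : Prop := ∀ (q : ℝ), 0 ≤ q → q ≤ 1 → ∀ (S : Finset Edg) (e g h : Edg) (ρ : ℕ),
  g ≠ h → (ρ:ℤ) + 1 ≤ dst e g → (ρ:ℤ) + 1 ≤ dst e h → PQ q S (T3 e g h) ≤ arm q ρ

/-- LOC3: three edges at mutual distance at least `2k+2`. -/
def S_loc3 : Prop := ∀ (q : ℝ), 0 ≤ q → q ≤ 1 → ∀ (S : Finset Edg) (e g h : Edg) (k : ℕ), 1 ≤ k →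
  2 * (k:ℤ) + 2 ≤ dst e g → 2 * (k:ℤ) + 2 ≤ dst e h → 2 * (k:ℤ) + 2 ≤ dst g h →
  blk (bp e) k ⊆ S → blk (bp g) k ⊆ S → blk (bp h) k ⊆ S →
  PQ q S (T3 e g h) ≤ a4 q k ^ 3

/-- PAIR: two edges in a block, at mutual distance at least `2k+2`; `β` outside the block. -/
def S_pair : Prop := ∀ (q : ℝ), 0 ≤ q → q ≤ 1 → ∀ (S : Finset Edg) (β g h : Edg) (c : ℤ × ℤ)
  (s k : ℕ), 1 ≤ k → blk c s ⊆ S → ((s:ℤ) + 1 ≤ |β.1 - c.1| ∨ (s:ℤ) + 1 ≤ |β.2.1 - c.2|) →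
  |g.1 - c.1| + k ≤ s → |g.2.1 - c.2| + k ≤ s → |h.1 - c.1| + k ≤ s → |h.2.1 - c.2| + k ≤ s →
  2 * (k:ℤ) + 2 ≤ dst g h →
  PQ q S (T3 β g h) ≤ a4 q k ^ 2 * PQ q S (Bf (Con β) (blk c s))

/-- PAIR0: two edges in a block. -/
def S_pair0 : Prop := ∀ (q : ℝ), 0 ≤ q → q ≤ 1 → ∀ (S : Finset Edg) (β g h : Edg)
  (b : Finset Edg), β ∉ b → g ∈ b → h ∈ b → g ≠ h →
  PQ q S (T3 β g h) ≤ PQ q S (Bf (Con β) b)

/-- BLK: the sum of the influences of the tiles of size `R`, far from `β` (conditioning on the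
ball of radius `r` around `β`). -/
def S_blk : Prop := ∀ (κ : ℝ), 0 < κ → ∀ K : ℕ, 1 ≤ K → ∃ C : ℝ, 0 < C ∧ ∀ (q : ℝ) (n : ℕ),
  Win q κ n → ∀ (S : Finset Edg) (β : Edg) (s R r : ℕ) (T : Finset (ℤ × ℤ)),
  1 ≤ s → 1 ≤ R → 2 * R ≤ n → 6 * R < K * s → 1 ≤ r → blk (bp β) r ⊆ S →
  (∀ t ∈ T, blk (s * t.1, s * t.2) (3 * R) ⊆ S) →
  (∀ t ∈ T, (3 * R : ℤ) + r + 1 ≤ |β.1 - s * t.1| ∨ (3 * R : ℤ) + r + 1 ≤ |β.2.1 - s * t.2|) →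
  ∑ t ∈ T, PQ q S (Bf (Con β) (blk (s * t.1, s * t.2) R)) ≤ C * a4 q r * Real.sqrt T.card

/-- RING: pairs at mutual distance about `s`, at distance about `2^j s` of `β`. -/
def S_ring : Prop := ∀ (κ : ℝ), 0 < κ → ∃ C : ℝ, 0 < C ∧ ∀ (q : ℝ) (n : ℕ), Win q κ n →
  ∀ (S U : Finset Edg) (β : Edg) (s j r : ℕ), 1 ≤ s → 40 * s ≤ n → 1 ≤ r → r ≤ 2 ^ j * s →
  blk (bp β) r ⊆ S → (∀ g ∈ U, blk (bp g) (40 * s) ⊆ S) →
  ∑ g ∈ U, ∑ h ∈ U, ind (4 * (s:ℤ) ≤ dst g h ∧ dst g h < 8 * s ∧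
      64 * (2 ^ j * s : ℤ) < dst β g ∧ dst β g ≤ 128 * (2 ^ j * s : ℤ)) * PQ q S (T3 β g h) ≤
    C * (s:ℝ) ^ 4 * a4 q s ^ 2 * a4 q r * 2 ^ j

/-- RING0: pairs at mutual distance at most `3`, at distance about `2^j` of `β`. -/
def S_ring0 : Prop := ∀ (κ : ℝ), 0 < κ → ∃ C : ℝ, 0 < C ∧ ∀ (q : ℝ) (n : ℕ), Win q κ n → 40 ≤ n →
  ∀ (S U : Finset Edg) (β : Edg) (j r : ℕ), 1 ≤ r → r ≤ 2 ^ j →
  blk (bp β) r ⊆ S → (∀ g ∈ U, blk (bp g) 40 ⊆ S) →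
  ∑ g ∈ U, ∑ h ∈ U, ind (g ≠ h ∧ dst g h ≤ 3 ∧
      64 * (2 ^ j : ℤ) < dst β g ∧ dst β g ≤ 128 * (2 ^ j : ℤ)) * PQ q S (T3 β g h) ≤
    C * a4 q r * 2 ^ j

/-- `β` is the isolated edge of the triple. -/
def Iso (β g h : Edg) : Prop :=
  β ≠ g ∧ β ≠ h ∧ g ≠ h ∧ dst g h ≤ dst β g ∧ dst g h ≤ dst β h

/-- PSUM: the sum over the pairs for a fixed isolated edge. -/
def S_psum : Prop := ∀ (κ : ℝ), 0 < κ → ∃ C : ℝ, 0 < C ∧ ∀ (q : ℝ) (n : ℕ), Win q κ n →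
  ∀ (A ε : ℝ), 1 ≤ A → 0 < ε → ε ≤ 1 / 16 →
  (∀ k : ℕ, 1 ≤ k → k ≤ n → a4 q k ≤ A * (k:ℝ) ^ (-(5/4) + ε)) →
  ∀ (Λ M : ℕ), 1000 ≤ n → n ≤ Λ → 16 * Λ ≤ M →
  (∀ b : ℕ, Λ ≤ b → arm q (b / 4) ≤ ((b:ℝ) ^ 6)⁻¹) →
  ∀ β ∈ boxE (M / 4 * 3), ∑ g ∈ boxE (M / 4 * 3), ∑ h ∈ boxE (M / 4 * 3),
    ind (Iso β g h) * PQ q (boxE M) (T3 β g h) ≤
      C * A ^ 3 * (n:ℝ) ^ (1/4 + 3 * ε) * ((Λ:ℝ) / n) ^ 4

/-- TRI: the sum over all triples. -/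
def S_tri : Prop := ∀ (κ : ℝ), 0 < κ → ∃ C : ℝ, 0 < C ∧ ∀ (q : ℝ) (n : ℕ), Win q κ n →
  ∀ (A ε : ℝ), 1 ≤ A → 0 < ε → ε ≤ 1 / 16 →
  (∀ k : ℕ, 1 ≤ k → k ≤ n → a4 q k ≤ A * (k:ℝ) ^ (-(5/4) + ε)) →
  ∀ (Λ M : ℕ), 1000 ≤ n → n ≤ Λ → 16 * Λ ≤ M →
  (∀ b : ℕ, Λ ≤ b → arm q (b / 4) ≤ ((b:ℝ) ^ 6)⁻¹) →
  ∑ e ∈ boxE (M / 4 * 2), ∑ g ∈ (boxE M).erase e, ∑ h ∈ ((boxE M).erase e).erase g,
    PQ q (boxE M) (T3 e g h) ≤
      C * (M:ℝ) ^ 2 * (A ^ 3 * (n:ℝ) ^ (1/4 + 3 * ε) * ((Λ:ℝ) / n) ^ 4)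

/-- PAR: choice of the parameters. -/
def S_par : Prop := ∀ ε : ℝ, 0 < ε → ∃ C τ : ℝ, 0 < C ∧ 0 < τ ∧ τ ≤ 1 / 4 ∧
  ∀ t : ℝ, 0 < t → t < τ → ∀ M : ℕ, t⁻¹ ^ 2 ≤ (M:ℝ) →
  ∑ e ∈ boxE (M / 4 * 2), ∑ g ∈ (boxE M).erase e, ∑ h ∈ ((boxE M).erase e).erase g,
    PQ (1/2 - t) (boxE M) (T3 e g h) ≤ C * (M:ℝ) ^ 2 * t ^ (-(1/3) - ε)

/-- Probability (infinite volume) that the ends of an edge of the given direction are connected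
without the edge. -/
noncomputable def gb (b : Bool) (q : ℝ) : ℝ := ⨆ n : ℕ, PQ q (boxE n) (Con (e0 b))

/-- Average over the two directions. -/
noncomputable def gg (q : ℝ) : ℝ := (gb true q + gb false q) / 2

/-- LIM: averages over the inner box. -/
def S_lim : Prop := ∀ q : ℝ, 0 ≤ q → q ≤ 1 → Filter.Tendsto
  (fun M : ℕ => (∑ e ∈ boxE (M / 4 * 2), PQ q (boxE M) (Con e)) / ((boxE (M / 4 * 2)).card : ℝ))
  Filter.atTop (nhds (gg q))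

/-- LIMB: averages over the whole box of side `n`. -/
def S_limb : Prop := ∀ q : ℝ, 0 ≤ q → q ≤ 1 → Filter.Tendsto
  (fun n : ℕ => (∑ e ∈ RE 0 ((n:ℤ) - 1) 0 ((n:ℤ) - 1),
    PQ q (RE 0 ((n:ℤ) - 1) 0 ((n:ℤ) - 1)) (Con e)) / (n:ℝ) ^ 2)
  Filter.atTop (nhds (2 * gg q))

/-- DUP: an open connection excludes a dual connection. -/
def S_dup : Prop := ∀ (F : Set Edg) (e : Edg), Reach (F \ {e}) (src e) (tgt e) →
  ¬ DReach (Fᶜ \ {e}) (dsrc e) (dtgt e)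

/-- DUC: a bounded cluster yields a dual connection. -/
def S_duc : Prop := ∀ (F : Set Edg) (e : Edg) (m : ℕ),
  (∀ v : Vtx, Reach (F \ {e}) (src e) v → |v.1| ≤ m ∧ |v.2| ≤ m) →
  ¬ Reach (F \ {e}) (src e) (tgt e) →
  DReach ((Fᶜ \ {e}) ∩ ↑(boxE (m + 1))) (dsrc e) (dtgt e)

/-- DUA: duality. -/
def S_dua : Prop := ∀ (q : ℝ) (b : Bool), 0 ≤ q → q ≤ 1 / 2 →
  Filter.Tendsto (fun n : ℕ => arm q n) Filter.atTop (nhds 0) →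
  gb b q + gb (!b) (1 - q) = 1

/-- LFT: left continuity at `1/2`. -/
def S_lft : Prop := Filter.Tendsto gg (nhdsWithin (1/2) (Set.Iio (1/2))) (nhds (gg (1/2)))

/-- CVX: the real analysis of the last step. The functions `G M` are twice differentiable, with
second derivative at most `C t^(-1/3-ε)` at `1/2 - t` for large `M`, and converge to `g`, which
is left continuous at `1/2` and satisfies `g q + g (1-q) = 1`. -/
def S_cvx : Prop := ∀ (g : ℝ → ℝ) (G G1 G2 : ℕ → ℝ → ℝ) (C τ ε : ℝ), 0 < C → 0 < τ → τ ≤ 1 / 4 →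
  0 < ε → ε < 2 / 3 →
  (∀ (M : ℕ) (q : ℝ), 0 < q → q < 1 → HasDerivAt (G M) (G1 M q) q) →
  (∀ (M : ℕ) (q : ℝ), 0 < q → q < 1 → HasDerivAt (G1 M) (G2 M q) q) →
  (∀ (M : ℕ) (t : ℝ), 0 < t → t < τ → t⁻¹ ^ 2 ≤ (M:ℝ) →
    |G2 M (1/2 - t)| ≤ C * t ^ (-(1/3) - ε)) →
  (∀ q : ℝ, 0 ≤ q → q ≤ 1 → Filter.Tendsto (fun M => G M q) Filter.atTop (nhds (g q))) →
  Filter.Tendsto g (nhdsWithin (1/2) (Set.Iio (1/2))) (nhds (1/2)) →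
  (∀ q : ℝ, 0 ≤ q → q ≤ 1 → g q + g (1 - q) = 1) →
  ∃ g' : ℝ → ℝ,
    (∀ q : ℝ, |q - 1/2| < τ → HasDerivAt g (g' q) q) ∧
    ∃ C' : ℝ, 0 < C' ∧
    (∀ q : ℝ, |q - 1/2| < τ → |g' q - g' (1/2)| ≤ C' * |q - 1/2| ^ ((2:ℝ)/3 - ε))

/-- The `n × n` grid graph. -/
def grid (n : ℕ) : SimpleGraph (Fin n × Fin n) where
  Adj u v := |(u.1 : ℤ) - (v.1 : ℤ)| + |(u.2 : ℤ) - (v.2 : ℤ)| = 1
  symm := ⟨fun u v h => by rw [abs_sub_comm (v.1 : ℤ), abs_sub_comm (v.2 : ℤ)]; exact h⟩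
  loopless := ⟨fun u h => by simp at h⟩

/-- The edges of the `n × n` grid. -/
noncomputable def gridE (n : ℕ) : Finset (Sym2 (Fin n × Fin n)) := by
  classical exact (grid n).edgeSet.toFinset

/-- The number of clusters (connected components of the graph with all `n²` vertices and the
open edges `F`). -/
noncomputable def clus (n : ℕ) (F : Finset (Sym2 (Fin n × Fin n))) : ℕ :=
  Nat.card (SimpleGraph.fromEdgeSet (↑F : Set (Sym2 (Fin n × Fin n)))).ConnectedComponent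

/-- The mean number of clusters of bond percolation with parameter `p` in the `n × n` box. -/
noncomputable def meanK (n : ℕ) (p : ℝ) : ℝ :=
  ∑ F ∈ (gridE n).powerset, p ^ F.card * (1 - p) ^ ((gridE n).card - F.card) * (clus n F : ℝ)

/-- KDER: value at `0` and derivative of the mean number of clusters. -/
def S_kder : Prop := ∀ n : ℕ, meanK n 0 = (n:ℝ) ^ 2 ∧ ∀ q : ℝ,
  HasDerivAt (meanK n) (- ∑ e ∈ RE 0 ((n:ℤ) - 1) 0 ((n:ℤ) - 1),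
    (1 - PQ q (RE 0 ((n:ℤ) - 1) 0 ((n:ℤ) - 1)) (Con e))) q

/-- KAP: the mean cluster density. -/
def S_kap : Prop := (IntervalIntegrable gg volume 0 1) ∧
  ∀ q : ℝ, 0 ≤ q → q ≤ 1 → Filter.Tendsto (fun n : ℕ => meanK n q / (n:ℝ) ^ 2) Filter.atTop
    (nhds (1 - 2 * ∫ s in (0:ℝ)..q, (1 - gg s)))

end Pool.Agent.W810.KP
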