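import Pool.Agent.W810.KP.Defs

/-! Assembly: from the parts to the final statement. -/

namespace Pool.Agent.W810.KP

open H974 H12S H973N Finset MeasureTheory Filter Topology

/-- Duality without the condition on the arms. -/
def S_dua' : Prop := ∀ (q : ℝ) (b : Bool), 0 ≤ q → q ≤ 1 / 2 → gb b q + gb (!b) (1 - q) = 1

theorem gg_dual (h : S_dua') (q : ℝ) (h0 : 0 ≤ q) (h1 : q ≤ 1) : gg q + gg (1 - q) = 1 := by
  have key : ∀ q : ℝ, 0 ≤ q → q ≤ 1 / 2 → gg q + gg (1 - q) = 1 := by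
    intro q h0 h1
    have a := h q true h0 h1
    have b := h q false h0 h1
    simp only [Bool.not_true, Bool.not_false] at a b
    unfold gg
    linarith
  rcases le_total q (1 / 2) with h2 | h2
  · exact key q h0 h2
  · have := key (1 - q) (by linarith) (by linarith)
    rw [show 1 - (1 - q) = q by ring] at this
    linarith

theorem gg_half (h : S_dua') : gg (1 / 2) = 1 / 2 := by
  have := gg_dual h (1 / 2) (by norm_num) (by norm_num)
  rw [show (1:ℝ) - 1 / 2 = 1 / 2 by norm_num] at this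
  linarith

theorem card_box (m : ℕ) : 4 * (m:ℝ) ^ 2 ≤ ((boxE m).card : ℝ) := by
  classical
  have h : ((Ico (-(m:ℤ)) m ×ˢ Ico (-(m:ℤ)) m).image (fun p : ℤ × ℤ => ((p.1, p.2, true) : Edg))).card
      ≤ (boxE m).card := by
    apply card_le_card
    intro e he
    rw [mem_image] at he
    obtain ⟨⟨x, y⟩, hp, rfl⟩ := he
    rw [mem_product, mem_Ico, mem_Ico] at hp
    unfold boxE
    rw [mem_RE_true]
    simp only at hp
    omega
  rw [card_image_of_injective _ (by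
    rintro ⟨a, b⟩ ⟨c, d⟩ hab
    simp only [Prod.mk.injEq, and_true] at hab
    exact Prod.ext hab.1 hab.2), card_product, Int.card_Ico] at h
  have e1 : ((m:ℤ) - -(m:ℤ)).toNat = 2 * m := by omega
  rw [e1] at h
  have h' : (((2 * m) * (2 * m) : ℕ) : ℝ) ≤ ((boxE m).card : ℝ) := by exact_mod_cast h
  push_cast at h'
  linarith

/-- The inner sum. -/
noncomputable def G0 (M : ℕ) (q : ℝ) : ℝ :=
  (∑ e ∈ boxE (M / 4 * 2), PQ q (boxE M) (Con e)) / ((boxE (M / 4 * 2)).card : ℝ)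

noncomputable def G1 (M : ℕ) (q : ℝ) : ℝ :=
  (∑ e ∈ boxE (M / 4 * 2), ∑ g ∈ (boxE M).erase e, PQ q (boxE M) (Pf (Con e) g)) /
    ((boxE (M / 4 * 2)).card : ℝ)

theorem box_sub {M : ℕ} : boxE (M / 4 * 2) ⊆ boxE M := boxE_mono (by omega)

theorem G0_deriv (hder : S_der) (M : ℕ) (q : ℝ) (h0 : 0 < q) (h1 : q < 1) :
    HasDerivAt (G0 M) (G1 M q) q := by
  unfold G0 G1
  refine HasDerivAt.div_const (HasDerivAt.fun_sum fun e he => ?_) _
  exact (hder (boxE M) e (box_sub he) q h0.le h1.le).1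

theorem G1_deriv (hder : S_der) (M : ℕ) (q : ℝ) (h0 : 0 < q) (h1 : q < 1) :
    ∃ D : ℝ, HasDerivAt (G1 M) D q ∧
      |D| ≤ (∑ e ∈ boxE (M / 4 * 2), ∑ g ∈ (boxE M).erase e, ∑ h ∈ ((boxE M).erase e).erase g,
        PQ q (boxE M) (T3 e g h)) / ((boxE (M / 4 * 2)).card : ℝ) := by
  classical
  have hc : ∀ e : Edg, e ∈ boxE M → ∃ D : ℝ, HasDerivAt (fun q : ℝ => ∑ g ∈ (boxE M).erase e,
      PQ q (boxE M) (Pf (Con e) g)) D q ∧
      |D| ≤ ∑ g ∈ (boxE M).erase e, ∑ h ∈ ((boxE M).erase e).erase g, PQ q (boxE M) (T3 e g h) :=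
    fun e he => (hder (boxE M) e he q h0.le h1.le).2
  choose! D hD1 hD2 using hc
  refine ⟨(∑ e ∈ boxE (M / 4 * 2), D e) / ((boxE (M / 4 * 2)).card : ℝ), ?_, ?_⟩
  · unfold G1
    refine HasDerivAt.div_const (HasDerivAt.fun_sum fun e he => ?_) _
    exact hD1 e (box_sub he)
  · rw [abs_div, abs_of_nonneg (Nat.cast_nonneg _ : (0:ℝ) ≤ ((boxE (M / 4 * 2)).card : ℝ))]
    refine div_le_div_of_nonneg_right ?_ (Nat.cast_nonneg _)
    exact (abs_sum_le_sum_abs _ _).trans (sum_le_sum fun e he => hD2 e (box_sub he))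

/-- Regularity of `gg` at `1/2`. -/
theorem core (hder : S_der) (hpar : S_par) (hlim : S_lim) (hlft : S_lft) (hdua : S_dua')
    (hcvx : S_cvx) (ε : ℝ) (hε : 0 < ε) (hε1 : ε < 2 / 3) :
    ∃ τ : ℝ, 0 < τ ∧ τ ≤ 1 / 4 ∧ ∃ g' : ℝ → ℝ, (∀ q : ℝ, |q - 1/2| < τ → HasDerivAt gg (g' q) q) ∧
      ∃ C' : ℝ, 0 < C' ∧ (∀ q : ℝ, |q - 1/2| < τ →
        |g' q - g' (1/2)| ≤ C' * |q - 1/2| ^ ((2:ℝ)/3 - ε)) := by
  obtain ⟨C, τ, hC, hτ, hτ1, hp⟩ := hpar ε hε
  refine ⟨τ, hτ, hτ1, ?_⟩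
  refine hcvx gg G0 G1 (fun M q => deriv (G1 M) q) (4 * C) τ ε (by positivity) hτ hτ1 hε hε1
    (fun M q h0 h1 => G0_deriv hder M q h0 h1) ?_ ?_ ?_ ?_ (gg_dual hdua)
  · intro M q h0 h1
    obtain ⟨D, hD, _⟩ := G1_deriv hder M q h0 h1
    exact hD.differentiableAt.hasDerivAt
  · intro M t ht htτ hM
    obtain ⟨D, hD, hD2⟩ := G1_deriv hder M (1/2 - t) (by linarith) (by linarith)
    change |deriv (G1 M) (1/2 - t)| ≤ _
    rw [hD.deriv]
    refine hD2.trans ?_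
    have h3 := hp t ht htτ M hM
    have hM16 : (16:ℝ) ≤ M := by
      have h4 : (4:ℝ) ≤ t⁻¹ := by
        rw [le_inv_comm₀ (by norm_num) ht]
        linarith
      nlinarith
    have hM16' : 16 ≤ M := by exact_mod_cast hM16
    have hm : (M:ℝ) / 4 ≤ ((M / 4 * 2 : ℕ) : ℝ) := by
      rw [div_le_iff₀ (by norm_num)]
      have : M ≤ (M / 4 * 2) * 4 := by omega
      exact_mod_cast this
    have hcard : (M:ℝ) ^ 2 / 4 ≤ ((boxE (M / 4 * 2)).card : ℝ) := by
      refine le_trans ?_ (card_box _)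
      have := mul_self_le_mul_self (by positivity) hm
      nlinarith
    have hcpos : 0 < ((boxE (M / 4 * 2)).card : ℝ) := lt_of_lt_of_le (by positivity) hcard
    rw [div_le_iff₀ hcpos]
    refine h3.trans ?_
    have h5 : 0 ≤ C * t ^ (-(1/3) - ε) := by positivity
    calc C * (M:ℝ) ^ 2 * t ^ (-(1/3) - ε) = 4 * (C * t ^ (-(1/3) - ε)) * ((M:ℝ) ^ 2 / 4) := by ring
      _ ≤ 4 * (C * t ^ (-(1/3) - ε)) * ((boxE (M / 4 * 2)).card : ℝ) :=
          mul_le_mul_of_nonneg_left hcard (by positivity)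
      _ = _ := by ring
  · exact hlim
  · have := hlft
    unfold S_lft at this
    rwa [gg_half hdua] at this

/-- Mean value inequality around `1/2`. -/
theorem mvt {f f' : ℝ → ℝ} {τ B p : ℝ} (hp : |p - 1/2| < τ)
    (hd : ∀ q, |q - 1/2| < τ → HasDerivAt f (f' q) q)
    (hB : ∀ q, |q - 1/2| ≤ |p - 1/2| → |f' q| ≤ B) : |f p - f (1/2)| ≤ B * |p - 1/2| := by
  have hconv : Convex ℝ {q : ℝ | |q - 1/2| ≤ |p - 1/2|} := by
    have : {q : ℝ | |q - 1/2| ≤ |p - 1/2|} = Metric.closedBall (1/2) |p - 1/2| := by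
      ext q
      simp [Real.dist_eq]
    rw [this]
    exact convex_closedBall _ _
  have h := hconv.norm_image_sub_le_of_norm_hasDerivWithin_le (f := f) (f' := f') (C := B)
    (x := 1/2) (y := p)
    (fun q hq => (hd q (lt_of_le_of_lt hq hp)).hasDerivWithinAt)
    (fun q hq => by rw [Real.norm_eq_abs]; exact hB q hq)
    (show |(1/2:ℝ) - 1/2| ≤ |p - 1/2| by rw [sub_self, abs_zero]; exact abs_nonneg _)
    (show |p - 1/2| ≤ |p - 1/2| from le_rfl)
  rwa [Real.norm_eq_abs, Real.norm_eq_abs] at h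

/-- The mean cluster density. -/
noncomputable def kap (q : ℝ) : ℝ := 1 - 2 * ∫ s in (0:ℝ)..q, (1 - gg s)

theorem kap_deriv (hI : IntervalIntegrable gg volume 0 1) {τ : ℝ} (hτ : τ ≤ 1 / 4)
    {g' : ℝ → ℝ} (hg : ∀ q : ℝ, |q - 1/2| < τ → HasDerivAt gg (g' q) q) (q : ℝ)
    (hq : |q - 1/2| < τ) : HasDerivAt kap (-2 * (1 - gg q)) q := by
  have hq' := abs_lt.mp hq
  have hc : ∀ x ∈ {x : ℝ | |x - 1/2| < τ}, ContinuousAt (fun s => 1 - gg s) x := fun x hx =>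
    continuousAt_const.sub (hg x hx).continuousAt
  have hopen : IsOpen {x : ℝ | |x - 1/2| < τ} :=
    isOpen_lt (by fun_prop) continuous_const
  have hmeas := ContinuousAt.stronglyMeasurableAtFilter (μ := volume) hopen hc q hq
  have hint : IntervalIntegrable (fun s => 1 - gg s) volume 0 q := by
    have h1 : IntervalIntegrable (fun s => 1 - gg s) volume 0 1 := intervalIntegrable_const.sub hI
    refine h1.mono_set ?_
    rw [Set.uIcc_of_le (by linarith), Set.uIcc_of_le (by norm_num)]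
    exact Set.Icc_subset_Icc le_rfl (by linarith)
  have h2 := intervalIntegral.integral_hasDerivAt_right hint hmeas (hc q hq)
  unfold kap
  exact ((h2.const_mul 2).const_sub 1).congr_deriv (by ring)

/-- The remainder. -/
noncomputable def Rem (κ : ℝ → ℝ) (p : ℝ) : ℝ :=
  κ p - κ (1/2) - deriv κ (1/2) * (p - 1/2) - deriv (deriv κ) (1/2) / 2 * (p - 1/2) ^ 2

theorem nhds_lt {τ q : ℝ} (hq : |q - 1/2| < τ) : ∀ᶠ x in 𝓝 q, |x - 1/2| < τ := by
  have hopen : IsOpen {x : ℝ | |x - 1/2| < τ} := isOpen_lt (by fun_prop) continuous_const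
  exact hopen.mem_nhds hq

theorem local_bound (hI : IntervalIntegrable gg volume 0 1) {τ : ℝ} (hτ0 : 0 < τ) (hτ : τ ≤ 1 / 4)
    {g' : ℝ → ℝ} (hg : ∀ q : ℝ, |q - 1/2| < τ → HasDerivAt gg (g' q) q) {C ε : ℝ} (hC : 0 < C)
    (hε1 : ε < 2 / 3)
    (hb : ∀ q : ℝ, |q - 1/2| < τ → |g' q - g' (1/2)| ≤ C * |q - 1/2| ^ ((2:ℝ)/3 - ε)) :
    (∀ q : ℝ, |q - 1/2| < τ → HasDerivAt kap (deriv kap q) q ∧
      HasDerivAt (deriv kap) (deriv (deriv kap) q) q ∧
      |deriv (deriv kap) q - deriv (deriv kap) (1/2)| ≤ 2 * C * |q - 1/2| ^ ((2:ℝ)/3 - ε)) ∧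
    ∀ p : ℝ, |p - 1/2| < τ → |Rem kap p| ≤ 2 * C * |p - 1/2| ^ ((8:ℝ)/3 - ε) := by
  have h12 : |(1/2:ℝ) - 1/2| < τ := by simpa using hτ0
  have k1 : ∀ q : ℝ, |q - 1/2| < τ → deriv kap q = -2 * (1 - gg q) := fun q hq =>
    (kap_deriv hI hτ hg q hq).deriv
  have k2 : ∀ q : ℝ, |q - 1/2| < τ → HasDerivAt (deriv kap) (2 * g' q) q := by
    intro q hq
    have h1 : HasDerivAt (fun q => -2 * (1 - gg q)) (2 * g' q) q := by
      exact (((hg q hq).const_sub 1).const_mul (-2)).congr_deriv (by ring)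
    refine h1.congr_of_eventuallyEq ?_
    filter_upwards [nhds_lt hq] with x hx
    exact k1 x hx
  have k3 : ∀ q : ℝ, |q - 1/2| < τ → deriv (deriv kap) q = 2 * g' q := fun q hq => (k2 q hq).deriv
  constructor
  · intro q hq
    refine ⟨(kap_deriv hI hτ hg q hq).differentiableAt.hasDerivAt,
      (k2 q hq).differentiableAt.hasDerivAt, ?_⟩
    rw [k3 q hq, k3 _ h12, ← mul_sub, abs_mul, abs_of_pos (by norm_num : (0:ℝ) < 2), mul_assoc]
    exact mul_le_mul_of_nonneg_left (hb q hq) (by norm_num)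
  · intro p hp
    have hp0 := abs_nonneg (p - 1/2)
    -- first level
    have s1 : ∀ q : ℝ, |q - 1/2| < τ → |gg q - gg (1/2) - g' (1/2) * (q - 1/2)| ≤
        C * |q - 1/2| ^ ((2:ℝ)/3 - ε) * |q - 1/2| := by
      intro q hq
      have := mvt (f := fun x => gg x - g' (1/2) * (x - 1/2)) (f' := fun x => g' x - g' (1/2))
        (B := C * |q - 1/2| ^ ((2:ℝ)/3 - ε)) hq (fun x hx => by
          have h1 := (hg x hx).sub (((hasDerivAt_id x).sub_const (1/2)).const_mul (g' (1/2)))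
          rw [mul_one] at h1
          exact h1) (fun x hx => by
          refine (hb x (lt_of_le_of_lt hx hq)).trans ?_
          refine mul_le_mul_of_nonneg_left ?_ hC.le
          exact Real.rpow_le_rpow (abs_nonneg _) hx (by linarith))
      have e : gg q - gg (1/2) - g' (1/2) * (q - 1/2) =
          (gg q - g' (1/2) * (q - 1/2)) - (gg (1/2) - g' (1/2) * (1/2 - 1/2)) := by ring
      rw [e]
      exact this
    -- second level
    have s2 := mvt (f := fun x => kap x - deriv kap (1/2) * (x - 1/2) -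
        deriv (deriv kap) (1/2) / 2 * (x - 1/2) ^ 2)
      (f' := fun x => 2 * (gg x - gg (1/2) - g' (1/2) * (x - 1/2)))
      (B := 2 * (C * |p - 1/2| ^ ((2:ℝ)/3 - ε) * |p - 1/2|)) hp (fun x hx => by
        have h1 := kap_deriv hI hτ hg x hx
        have h2 := ((hasDerivAt_id x).sub_const (1/2)).const_mul (deriv kap (1/2))
        have h3 := (((hasDerivAt_id x).sub_const (1/2)).fun_pow 2).const_mul
          (deriv (deriv kap) (1/2) / 2)
        refine ((h1.fun_sub h2).fun_sub h3).congr_deriv ?_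
        rw [k1 _ h12, k3 _ h12]
        simp only [id]
        norm_num
        ring) (fun x hx => by
        rw [abs_mul, abs_of_pos (by norm_num : (0:ℝ) < 2)]
        refine mul_le_mul_of_nonneg_left ?_ (by norm_num)
        refine (s1 x (lt_of_le_of_lt hx hp)).trans ?_
        refine mul_le_mul ?_ hx (abs_nonneg _) (by positivity)
        refine mul_le_mul_of_nonneg_left ?_ hC.le
        exact Real.rpow_le_rpow (abs_nonneg _) hx (by linarith))
    have e : Rem kap p = (kap p - deriv kap (1/2) * (p - 1/2) -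
        deriv (deriv kap) (1/2) / 2 * (p - 1/2) ^ 2) - (kap (1/2) - deriv kap (1/2) * (1/2 - 1/2) -
        deriv (deriv kap) (1/2) / 2 * (1/2 - 1/2) ^ 2) := by
      unfold Rem; ring
    rw [e]
    refine s2.trans (le_of_eq ?_)
    have e2 : |p - 1/2| ^ ((8:ℝ)/3 - ε) = |p - 1/2| ^ ((2:ℝ)/3 - ε) * |p - 1/2| * |p - 1/2| := by
      rcases hp0.eq_or_lt with h | h
      · rw [← h, Real.zero_rpow (by linarith)]
        ring
      · rw [mul_assoc, ← sq, ← Real.rpow_natCast, ← Real.rpow_add h]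
        congr 1
        push_cast
        ring
    rw [e2]
    ring

/-- Extension of a local bound to `[0,1]`. -/
theorem extend {R : ℝ → ℝ} {τ C a K : ℝ} (hτ : 0 < τ) (hC : 0 < C) (ha : 0 ≤ a)
    (hloc : ∀ p : ℝ, |p - 1/2| < τ → |R p| ≤ C * |p - 1/2| ^ a)
    {X : Set ℝ} (hK : ∀ p ∈ X, |R p| ≤ K) :
    ∃ C' : ℝ, ∀ p ∈ X, |R p| ≤ C' * |p - 1/2| ^ a := by
  refine ⟨C + |K| / τ ^ a, fun p hp => ?_⟩
  have h0 : 0 ≤ |p - 1/2| ^ a := by positivity
  have h1 : 0 < τ ^ a := by positivity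
  rw [add_mul]
  rcases lt_or_ge |p - 1/2| τ with h | h
  · have := hloc p h
    have h2 : 0 ≤ |K| / τ ^ a * |p - 1/2| ^ a := by positivity
    linarith
  · have h2 : τ ^ a ≤ |p - 1/2| ^ a := Real.rpow_le_rpow hτ.le h ha
    have h3 : |K| ≤ |K| / τ ^ a * |p - 1/2| ^ a := by
      rw [div_mul_eq_mul_div, le_div_iff₀ h1]
      exact mul_le_mul_of_nonneg_left h2 (abs_nonneg _)
    have h4 := hK p hp
    have h5 := le_abs_self K
    have h6 : 0 ≤ C * |p - 1/2| ^ a := by positivity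
    linarith

theorem kap_bdd (hI : IntervalIntegrable gg volume 0 1) :
    ∃ K : ℝ, ∀ p ∈ Set.Icc (0:ℝ) 1, |Rem kap p| ≤ K := by
  have hc : ContinuousOn kap (Set.Icc 0 1) := by
    unfold kap
    have h1 : IntervalIntegrable (fun s => 1 - gg s) volume 0 1 := intervalIntegrable_const.sub hI
    have h2 : ContinuousOn (fun q => ∫ s in (0:ℝ)..q, (1 - gg s)) (Set.uIcc 0 1) :=
      intervalIntegral.continuousOn_primitive_interval' h1 (by simp)
    rw [Set.uIcc_of_le (by norm_num)] at h2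
    exact continuousOn_const.sub (continuousOn_const.mul h2)
  have hc2 : ContinuousOn (Rem kap) (Set.Icc 0 1) := by
    unfold Rem
    refine ContinuousOn.sub (ContinuousOn.sub (hc.sub continuousOn_const) ?_) ?_
    · fun_prop
    · fun_prop
  obtain ⟨K, hK⟩ := isCompact_Icc.exists_bound_of_continuousOn hc2
  exact ⟨K, fun p hp => by simpa using hK p hp⟩

/-- From the upper bounds to the inequality for the exponent. -/
theorem alpha_le {R : ℝ → ℝ}
    (hR : ∀ ε : ℝ, 0 < ε → ∃ C : ℝ, ∀ p ∈ Set.Icc (0:ℝ) 1, |R p| ≤ C * |p - 1/2| ^ ((8:ℝ)/3 - ε))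
    (α : ℝ) (o : ℝ → ℝ) (ho : Tendsto o (𝓝[≠] (1/2)) (𝓝 0))
    (h : ∀ᶠ p in 𝓝[≠] (1/2 : ℝ), |R p| = |p - 1/2| ^ (2 - α + o p)) : α ≤ -(2/3) := by
  by_contra hcon
  push Not at hcon
  set ε : ℝ := (α + 2/3) / 4 with hε
  have hε0 : 0 < ε := by rw [hε]; linarith
  obtain ⟨C, hC⟩ := hR ε hε0
  have h1 : ∀ᶠ p in 𝓝[≠] (1/2 : ℝ), |o p| < ε := by
    have := ho.eventually (Metric.ball_mem_nhds 0 hε0)
    filter_upwards [this] with p hp
    simpa [Real.dist_eq] using hp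
  have h2 : ∀ᶠ p in 𝓝[≠] (1/2 : ℝ), |p - 1/2| < 1/2 := by
    have : ∀ᶠ p in 𝓝 (1/2 : ℝ), |p - 1/2| < 1/2 := nhds_lt (by norm_num)
    exact this.filter_mono nhdsWithin_le_nhds
  have h3 : ∀ᶠ p in 𝓝[≠] (1/2 : ℝ), p ≠ 1/2 := eventually_mem_nhdsWithin
  have h4 : ∀ᶠ p in 𝓝[≠] (1/2 : ℝ), |p - 1/2| ^ (-(2 * ε)) ≤ C := by
    filter_upwards [h, h1, h2, h3] with p hp1 hp2 hp3 hp4
    have x0 : 0 < |p - 1/2| := abs_pos.mpr (sub_ne_zero.mpr hp4)
    have x1 : |p - 1/2| ≤ 1 := by linarith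
    have hpI : p ∈ Set.Icc (0:ℝ) 1 := by
      have := abs_lt.mp hp3
      exact ⟨by linarith, by linarith⟩
    have y1 := hC p hpI
    rw [hp1] at y1
    have y2 : |p - 1/2| ^ (2 - α + ε) ≤ |p - 1/2| ^ (2 - α + o p) :=
      Real.rpow_le_rpow_of_exponent_ge x0 x1 (by have := (abs_lt.mp hp2).2; linarith)
    have y3 := y2.trans y1
    have e1 : |p - 1/2| ^ (2 - α + ε) = |p - 1/2| ^ (-(2 * ε)) * |p - 1/2| ^ ((8:ℝ)/3 - ε) := by
      rw [← Real.rpow_add x0]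
      congr 1
      rw [hε]
      ring
    rw [e1] at y3
    exact le_of_mul_le_mul_right y3 (by positivity)
  have h5 : Tendsto (fun p : ℝ => |p - 1/2| ^ (-(2 * ε))) (𝓝[≠] (1/2)) atTop := by
    have a1 : Tendsto (fun p : ℝ => |p - 1/2|) (𝓝[≠] (1/2)) (𝓝[>] 0) := by
      refine tendsto_nhdsWithin_of_tendsto_nhds_of_eventually_within _ ?_ ?_
      · have : Tendsto (fun p : ℝ => |p - 1/2|) (𝓝 (1/2)) (𝓝 |(1/2:ℝ) - 1/2|) :=
          (Continuous.tendsto (by fun_prop) _)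
        rw [sub_self, abs_zero] at this
        exact this.mono_left nhdsWithin_le_nhds
      · filter_upwards [h3] with p hp
        exact abs_pos.mpr (sub_ne_zero.mpr hp)
    exact (tendsto_rpow_neg_nhdsGT_zero (by linarith)).comp a1
  have h6 := h5.eventually (eventually_gt_atTop C)
  obtain ⟨p, hp1, hp2⟩ := (h4.and h6).exists
  linarith

/-- The final statement. -/
def Final : Prop := ∃ κ : ℝ → ℝ,
  (∀ p ∈ Set.Icc (0:ℝ) 1, Tendsto (fun n : ℕ => meanK n p / (n:ℝ) ^ 2) atTop (𝓝 (κ p))) ∧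
  (∃ δ : ℝ, 0 < δ ∧ (∀ p : ℝ, |p - 1/2| < δ → DifferentiableAt ℝ κ p ∧
      DifferentiableAt ℝ (deriv κ) p) ∧
    ∀ ε : ℝ, 0 < ε → ∃ C : ℝ, ∀ p : ℝ, |p - 1/2| < δ →
      |deriv (deriv κ) p - deriv (deriv κ) (1/2)| ≤ C * |p - 1/2| ^ ((2:ℝ)/3 - ε)) ∧
  (∀ ε : ℝ, 0 < ε → ∃ C : ℝ, ∀ p ∈ Set.Icc (0:ℝ) 1,
    |Rem κ p| ≤ C * |p - 1/2| ^ ((8:ℝ)/3 - ε)) ∧
  (∀ α : ℝ, (∃ o : ℝ → ℝ, Tendsto o (𝓝[≠] (1/2)) (𝓝 0) ∧
    ∀ᶠ p in 𝓝[≠] (1/2 : ℝ), |Rem κ p| = |p - 1/2| ^ (2 - α + o p)) → α ≤ -(2/3))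

theorem final (hder : S_der) (hpar : S_par) (hlim : S_lim) (hlft : S_lft) (hdua : S_dua')
    (hcvx : S_cvx) (hkap : S_kap) : Final := by
  obtain ⟨hI, hlimK⟩ := hkap
  obtain ⟨δ, hδ, hδ1, g0, hg0, C0, hC0, hb0⟩ := core hder hpar hlim hlft hdua hcvx (1/2)
    (by norm_num) (by norm_num)
  have L0 := local_bound hI hδ hδ1 hg0 hC0 (by norm_num) hb0
  obtain ⟨K, hK⟩ := kap_bdd hI
  have hR : ∀ ε : ℝ, 0 < ε → ∃ C : ℝ, ∀ p ∈ Set.Icc (0:ℝ) 1,
      |Rem kap p| ≤ C * |p - 1/2| ^ ((8:ℝ)/3 - ε) := by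
    -- small ε
    have small : ∀ ε : ℝ, 0 < ε → ε < 2/3 → ∃ C : ℝ, ∀ p ∈ Set.Icc (0:ℝ) 1,
        |Rem kap p| ≤ C * |p - 1/2| ^ ((8:ℝ)/3 - ε) := by
      intro ε hε hε1
      obtain ⟨τ, hτ, hτ1, g1, hg1, C1, hC1, hb1⟩ := core hder hpar hlim hlft hdua hcvx ε hε hε1
      have L1 := local_bound hI hτ hτ1 hg1 hC1 hε1 hb1
      exact extend hτ (by positivity : 0 < 2 * C1) (by linarith) L1.2 hK
    intro ε hε
    rcases lt_or_ge ε (1/2) with h | h
    · exact small ε hε (by linarith)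
    · obtain ⟨C, hC⟩ := small (1/2) (by norm_num) (by norm_num)
      refine ⟨|C|, fun p hp => ?_⟩
      rcases (abs_nonneg (p - 1/2)).eq_or_lt with h0 | h0
      · have e : p = 1/2 := by
          have := abs_eq_zero.mp h0.symm
          linarith
        subst e
        have : Rem kap (1/2) = 0 := by unfold Rem; ring
        rw [this, abs_zero]
        positivity
      · refine (hC p hp).trans ?_
        have x1 : |p - 1/2| ≤ 1 := by
          rw [abs_le]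
          exact ⟨by linarith [hp.1], by linarith [hp.2]⟩
        have h2 : |p - 1/2| ^ ((8:ℝ)/3 - 1/2) ≤ |p - 1/2| ^ ((8:ℝ)/3 - ε) :=
          Real.rpow_le_rpow_of_exponent_ge h0 x1 (by linarith)
        calc C * |p - 1/2| ^ ((8:ℝ)/3 - 1/2) ≤ |C| * |p - 1/2| ^ ((8:ℝ)/3 - 1/2) :=
              mul_le_mul_of_nonneg_right (le_abs_self C) (by positivity)
          _ ≤ _ := mul_le_mul_of_nonneg_left h2 (abs_nonneg _)
  refine ⟨kap, fun p hp => hlimK p hp.1 hp.2, ⟨δ, hδ, fun p hp =>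
    ⟨(L0.1 p hp).1.differentiableAt, (L0.1 p hp).2.1.differentiableAt⟩, ?_⟩, hR, ?_⟩
  · -- Hölder continuity
    set D : ℝ → ℝ := fun p => deriv (deriv kap) p - deriv (deriv kap) (1/2) with hD
    have hDK : ∀ p ∈ {p : ℝ | |p - 1/2| < δ}, |D p| ≤ 2 * C0 := by
      intro p hp
      refine (L0.1 p hp).2.2.trans ?_
      have h1 : |p - 1/2| ^ ((2:ℝ)/3 - 1/2) ≤ 1 := by
        apply Real.rpow_le_one (abs_nonneg _) _ (by norm_num)
        have : |p - 1/2| < δ := hp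
        linarith
      have : 0 < 2 * C0 := by positivity
      nlinarith
    have small : ∀ ε : ℝ, 0 < ε → ε < 2/3 → ∃ C : ℝ, ∀ p ∈ {p : ℝ | |p - 1/2| < δ},
        |D p| ≤ C * |p - 1/2| ^ ((2:ℝ)/3 - ε) := by
      intro ε hε hε1
      obtain ⟨τ, hτ, hτ1, g1, hg1, C1, hC1, hb1⟩ := core hder hpar hlim hlft hdua hcvx ε hε hε1
      have L1 := local_bound hI hτ hτ1 hg1 hC1 hε1 hb1
      exact extend hτ (by positivity : 0 < 2 * C1) (by linarith) (fun p hp => (L1.1 p hp).2.2) hDK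
    intro ε hε
    rcases lt_or_ge ε (1/2) with h | h
    · exact small ε hε (by linarith)
    · obtain ⟨C, hC⟩ := small (1/2) (by norm_num) (by norm_num)
      refine ⟨|C|, fun p hp => ?_⟩
      change |D p| ≤ _
      rcases (abs_nonneg (p - 1/2)).eq_or_lt with h0 | h0
      · have e : p = 1/2 := by
          have := abs_eq_zero.mp h0.symm
          linarith
        subst e
        rw [hD]
        simp only [sub_self, abs_zero]
        positivity
      · refine (hC p hp).trans ?_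
        have x1 : |p - 1/2| ≤ 1 := by linarith
        have h2 : |p - 1/2| ^ ((2:ℝ)/3 - 1/2) ≤ |p - 1/2| ^ ((2:ℝ)/3 - ε) :=
          Real.rpow_le_rpow_of_exponent_ge h0 x1 (by linarith)
        calc C * |p - 1/2| ^ ((2:ℝ)/3 - 1/2) ≤ |C| * |p - 1/2| ^ ((2:ℝ)/3 - 1/2) :=
              mul_le_mul_of_nonneg_right (le_abs_self C) (by positivity)
          _ ≤ _ := mul_le_mul_of_nonneg_left h2 (abs_nonneg _)
  · rintro α ⟨o, ho, h⟩
    exact alpha_le hR α o ho h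

end Pool.Agent.W810.KP
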