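import Pool.Agent.W810.KP.Defs

/-! Counting lemmas and geometric sums for `S_psum`. -/

namespace Pool.Agent.W810.KP.PS

open H974 H12S H973N Finset

theorem dst_nonneg (e g : Edg) : 0 ≤ dst e g := (abs_nonneg _).trans (le_max_left _ _)

theorem dst_comm (e g : Edg) : dst e g = dst g e := by
  unfold dst
  rw [abs_sub_comm e.1, abs_sub_comm e.2.1]

theorem dst_tri (e g h : Edg) : dst e h ≤ dst e g + dst g h := by
  unfold dst
  have h1 := abs_sub_le e.1 g.1 h.1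
  have h2 := abs_sub_le e.2.1 g.2.1 h.2.1
  have a1 := le_max_left |e.1 - g.1| |e.2.1 - g.2.1|
  have a2 := le_max_right |e.1 - g.1| |e.2.1 - g.2.1|
  have a3 := le_max_left |g.1 - h.1| |g.2.1 - h.2.1|
  have a4 := le_max_right |g.1 - h.1| |g.2.1 - h.2.1|
  apply max_le <;> linarith

theorem ind_card {α : Type*} (U : Finset α) (Q : α → Prop) [DecidablePred Q] :
    ∑ x ∈ U, ind (Q x) = ((U.filter Q).card : ℝ) := by
  classical
  rw [Finset.card_filter]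
  push_cast
  apply Finset.sum_congr rfl
  intro x _
  unfold ind
  by_cases h : Q x <;> simp [h]

theorem count (U : Finset Edg) (e : Edg) (w : ℕ) :
    ∑ g ∈ U, ind (dst e g ≤ w) ≤ 2 * (2 * (w:ℝ) + 1) ^ 2 := by
  classical
  have hsub : U.filter (fun g => dst e g ≤ w) ⊆
      Icc (e.1 - w) (e.1 + w) ×ˢ (Icc (e.2.1 - w) (e.2.1 + w) ×ˢ (univ : Finset Bool)) := by
    intro g hg
    rw [mem_filter] at hg
    have h := hg.2
    unfold dst at h
    have h1 := (le_max_left _ _).trans h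
    have h2 := (le_max_right _ _).trans h
    rw [abs_le] at h1 h2
    rw [mem_product, mem_product, mem_Icc, mem_Icc]
    refine ⟨by omega, by omega, mem_univ _⟩
  have hc := card_le_card hsub
  rw [card_product, card_product, Int.card_Icc, Int.card_Icc] at hc
  have e1 : (e.1 + w + 1 - (e.1 - w)).toNat = 2 * w + 1 := by omega
  have e2 : (e.2.1 + w + 1 - (e.2.1 - w)).toNat = 2 * w + 1 := by omega
  rw [e1, e2] at hc
  have e3 : (univ : Finset Bool).card = 2 := rfl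
  rw [e3] at hc
  rw [ind_card]
  have hc' : ((U.filter (fun g => dst e g ≤ w)).card : ℝ) ≤ ((2 * w + 1) * ((2 * w + 1) * 2) : ℕ) := by
    exact_mod_cast hc
  refine hc'.trans (le_of_eq ?_)
  push_cast
  ring

/-- Sum over the pairs with `dst β g ≤ w1`, `dst g h ≤ w2`. -/
theorem dcount (U : Finset Edg) (β : Edg) (w1 w2 : ℕ) (Q : Edg → Edg → Prop) (p : Edg → Edg → ℝ)
    {B : ℝ} (hB : 0 ≤ B)
    (hp : ∀ g ∈ U, ∀ h ∈ U, Q g h → p g h ≤ B)
    (hQ : ∀ g h, Q g h → dst β g ≤ w1 ∧ dst g h ≤ w2) :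
    ∑ g ∈ U, ∑ h ∈ U, ind (Q g h) * p g h ≤
      (2 * (2 * (w1:ℝ) + 1) ^ 2) * (2 * (2 * (w2:ℝ) + 1) ^ 2) * B := by
  have s1 : ∀ g ∈ U, ∑ h ∈ U, ind (Q g h) * p g h ≤
      ind (dst β g ≤ w1) * ((2 * (2 * (w2:ℝ) + 1) ^ 2) * B) := by
    intro g hg
    calc ∑ h ∈ U, ind (Q g h) * p g h ≤ ∑ h ∈ U, ind (dst β g ≤ w1) * (ind (dst g h ≤ w2) * B) := by
          refine sum_le_sum fun h hh => ?_
          by_cases hq : Q g h
          · obtain ⟨a, b⟩ := hQ g h hq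
            rw [ind_of hq, ind_of a, ind_of b, one_mul, one_mul, one_mul]
            exact hp g hg h hh hq
          · rw [ind_not_of hq, zero_mul]
            exact mul_nonneg (ind_nonneg _) (mul_nonneg (ind_nonneg _) hB)
      _ = ind (dst β g ≤ w1) * ((∑ h ∈ U, ind (dst g h ≤ w2)) * B) := by
          rw [← mul_sum, ← sum_mul]
      _ ≤ _ := by
          refine mul_le_mul_of_nonneg_left ?_ (ind_nonneg _)
          exact mul_le_mul_of_nonneg_right (count U g w2) hB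
  refine (sum_le_sum s1).trans ?_
  rw [← sum_mul]
  have h3 := count U β w1
  calc (∑ g ∈ U, ind (dst β g ≤ w1)) * ((2 * (2 * (w2:ℝ) + 1) ^ 2) * B)
      ≤ (2 * (2 * (w1:ℝ) + 1) ^ 2) * ((2 * (2 * (w2:ℝ) + 1) ^ 2) * B) :=
        mul_le_mul_of_nonneg_right h3 (by positivity)
    _ = _ := by ring

theorem geom_up {x : ℝ} (hx : 9 / 8 ≤ x) (N : ℕ) : ∑ i ∈ range (N + 1), x ^ i ≤ 9 * x ^ N := by
  induction N with
  | zero => simp
  | succ N ih =>
    rw [sum_range_succ]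
    have h1 : 0 < x ^ N := pow_pos (by linarith) N
    have h2 : x ^ (N + 1) = x ^ N * x := pow_succ x N
    rw [h2]
    nlinarith

theorem geom_down {y : ℝ} (h0 : 0 ≤ y) (hy : y ≤ 8 / 9) (N : ℕ) : ∑ i ∈ range N, y ^ i ≤ 9 := by
  have h1 : ∑ i ∈ range N, y ^ i ≤ ∑ i ∈ range N, ((8:ℝ) / 9) ^ i :=
    sum_le_sum fun i _ => pow_le_pow_left₀ h0 hy i
  refine h1.trans ?_
  rw [geom_sum_eq (by norm_num)]
  have : 0 < ((8:ℝ) / 9) ^ N := by positivity
  rw [div_le_iff_of_neg (by norm_num)]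
  linarith

theorem two_rpow_quarter {ε : ℝ} (h0 : 0 ≤ ε) : 9 / 8 ≤ (2:ℝ) ^ ((1:ℝ) / 4 + 3 * ε) := by
  have h1 : (9:ℝ) / 8 ≤ (2:ℝ) ^ ((1:ℝ) / 4) := by
    have e : (9:ℝ) / 8 = (((9:ℝ) / 8) ^ (4:ℕ)) ^ ((1:ℝ) / 4) := by
      rw [← Real.rpow_natCast, ← Real.rpow_mul (by norm_num)]
      norm_num
    rw [e]
    exact Real.rpow_le_rpow (by norm_num) (by norm_num) (by norm_num)
  exact h1.trans (Real.rpow_le_rpow_of_exponent_le (by norm_num) (by linarith))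

theorem two_rpow_neg {ε : ℝ} (h1 : ε ≤ 1 / 16) : (2:ℝ) ^ (-((1:ℝ) / 4) + ε) ≤ 8 / 9 := by
  have h2 : (2:ℝ) ^ (-((3:ℝ) / 16)) ≤ 8 / 9 := by
    have e : (8:ℝ) / 9 = (((8:ℝ) / 9) ^ (16:ℕ)) ^ ((1:ℝ) / 16) := by
      rw [← Real.rpow_natCast, ← Real.rpow_mul (by norm_num)]
      norm_num
    have e2 : (2:ℝ) ^ (-((3:ℝ) / 16)) = ((1:ℝ) / 8) ^ ((1:ℝ) / 16) := by
      rw [show ((1:ℝ) / 8) = (2:ℝ) ^ (-(3:ℝ)) by
        rw [Real.rpow_neg (by norm_num)]; norm_num]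
      rw [← Real.rpow_mul (by norm_num)]
      norm_num
    rw [e, e2]
    exact Real.rpow_le_rpow (by norm_num) (by norm_num) (by norm_num)
  exact (Real.rpow_le_rpow_of_exponent_le (by norm_num) (by linarith)).trans h2

/-- Sum of the inverse fourth powers of the distances. -/
theorem inv_four (U : Finset Edg) (β : Edg) :
    ∑ g ∈ U, ind (1 ≤ dst β g) * ((dst β g : ℝ) ^ 4)⁻¹ ≤ 200 := by
  classical
  -- one dimensional sum
  have one : ∀ (N : ℕ) (a : ℤ), ∑ x ∈ Icc (a - N) (a + N), (((x - a : ℤ) : ℝ) ^ 2 + 1)⁻¹ ≤ 5 := by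
    intro N a
    have key : ∀ N : ℕ, ∑ x ∈ Icc (a - N) (a + N), (((x - a : ℤ) : ℝ) ^ 2 + 1)⁻¹ ≤
        5 - 4 / ((N:ℝ) + 1) := by
      intro N
      induction N with
      | zero =>
        simp
        norm_num
      | succ N ih =>
        have e1 : Icc (a - ((N + 1 : ℕ) : ℤ)) (a + ((N + 1 : ℕ) : ℤ)) =
            insert (a - ((N + 1 : ℕ) : ℤ)) (insert (a + ((N + 1 : ℕ) : ℤ)) (Icc (a - N) (a + N))) := by
          ext x
          simp only [mem_Icc, mem_insert]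
          push_cast
          omega
        have n1 : a + ((N + 1 : ℕ) : ℤ) ∉ Icc (a - (N:ℤ)) (a + N) := by
          rw [mem_Icc]; push_cast; omega
        have n2 : a - ((N + 1 : ℕ) : ℤ) ∉ insert (a + ((N + 1 : ℕ) : ℤ)) (Icc (a - (N:ℤ)) (a + N)) := by
          rw [mem_insert, mem_Icc]; push_cast; omega
        rw [e1, sum_insert n2, sum_insert n1]
        have v1 : (((a - ((N + 1 : ℕ) : ℤ) - a : ℤ) : ℝ) ^ 2 + 1)⁻¹ = (((N:ℝ) + 1) ^ 2 + 1)⁻¹ := by
          congr 2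
          push_cast
          ring
        have v2 : (((a + ((N + 1 : ℕ) : ℤ) - a : ℤ) : ℝ) ^ 2 + 1)⁻¹ = (((N:ℝ) + 1) ^ 2 + 1)⁻¹ := by
          congr 2
          push_cast
          ring
        rw [v1, v2]
        have hN : (0:ℝ) ≤ N := Nat.cast_nonneg N
        have h3 : 2 * (((N:ℝ) + 1) ^ 2 + 1)⁻¹ ≤ 4 / ((N:ℝ) + 1) - 4 / ((N:ℝ) + 2) := by
          rw [div_sub_div _ _ (by positivity) (by positivity), ← div_eq_mul_inv,
            div_le_div_iff₀ (by positivity) (by positivity)]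
          nlinarith
        have e4 : (((N + 1 : ℕ) : ℝ)) + 1 = N + 2 := by push_cast; ring
        rw [e4]
        linarith
    refine (key N).trans ?_
    have : (0:ℝ) ≤ 4 / ((N:ℝ) + 1) := by positivity
    linarith
  -- bounding box
  obtain ⟨N, hN⟩ : ∃ N : ℕ, ∀ g ∈ U, dst β g ≤ N := by
    refine ⟨∑ g ∈ U, (dst β g).toNat, fun g hg => ?_⟩
    have h1 : (dst β g).toNat ≤ ∑ g ∈ U, (dst β g).toNat :=
      single_le_sum (f := fun g => (dst β g).toNat) (fun _ _ => Nat.zero_le _) hg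
    have h2 := dst_nonneg β g
    omega
  set W : Finset Edg := Icc (β.1 - N) (β.1 + N) ×ˢ (Icc (β.2.1 - N) (β.2.1 + N) ×ˢ
    (univ : Finset Bool)) with hW
  have hsub : U ⊆ W := by
    intro g hg
    have h := hN g hg
    unfold dst at h
    have h1 := (le_max_left _ _).trans h
    have h2 := (le_max_right _ _).trans h
    rw [abs_le] at h1 h2
    rw [hW, mem_product, mem_product, mem_Icc, mem_Icc]
    refine ⟨by omega, by omega, mem_univ _⟩
  have pt : ∀ g : Edg, ind (1 ≤ dst β g) * ((dst β g : ℝ) ^ 4)⁻¹ ≤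
      4 * ((((g.1 - β.1 : ℤ) : ℝ) ^ 2 + 1)⁻¹ * (((g.2.1 - β.2.1 : ℤ) : ℝ) ^ 2 + 1)⁻¹) := by
    intro g
    by_cases h : 1 ≤ dst β g
    · rw [ind_of h, one_mul]
      have hm : (1:ℝ) ≤ (dst β g : ℝ) := by exact_mod_cast h
      have a1 : |((g.1 - β.1 : ℤ) : ℝ)| ≤ (dst β g : ℝ) := by
        have : |g.1 - β.1| ≤ dst β g := by
          rw [abs_sub_comm]; exact le_max_left _ _
        exact_mod_cast this
      have a2 : |((g.2.1 - β.2.1 : ℤ) : ℝ)| ≤ (dst β g : ℝ) := by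
        have : |g.2.1 - β.2.1| ≤ dst β g := by
          rw [abs_sub_comm]; exact le_max_right _ _
        exact_mod_cast this
      have b1 := sq_le_sq' (abs_le.mp a1).1 (abs_le.mp a1).2
      have b2 := sq_le_sq' (abs_le.mp a2).1 (abs_le.mp a2).2
      set m : ℝ := (dst β g : ℝ)
      set x : ℝ := ((g.1 - β.1 : ℤ) : ℝ)
      set y : ℝ := ((g.2.1 - β.2.1 : ℤ) : ℝ)
      have c1 : x ^ 2 + 1 ≤ 2 * m ^ 2 := by nlinarith
      have c2 : y ^ 2 + 1 ≤ 2 * m ^ 2 := by nlinarith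
      have c3 : (x ^ 2 + 1) * (y ^ 2 + 1) ≤ 4 * m ^ 4 := by
        calc (x ^ 2 + 1) * (y ^ 2 + 1) ≤ (2 * m ^ 2) * (2 * m ^ 2) :=
              mul_le_mul c1 c2 (by positivity) (by positivity)
          _ = 4 * m ^ 4 := by ring
      rw [← mul_inv]
      rw [show (4:ℝ) * ((x ^ 2 + 1) * (y ^ 2 + 1))⁻¹ = 4 / ((x ^ 2 + 1) * (y ^ 2 + 1)) by
        rw [div_eq_mul_inv]]
      rw [inv_eq_one_div, div_le_div_iff₀ (by positivity) (by positivity)]
      linarith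
    · rw [ind_not_of h, zero_mul]
      positivity
  calc ∑ g ∈ U, ind (1 ≤ dst β g) * ((dst β g : ℝ) ^ 4)⁻¹
      ≤ ∑ g ∈ W, ind (1 ≤ dst β g) * ((dst β g : ℝ) ^ 4)⁻¹ :=
        sum_le_sum_of_subset_of_nonneg hsub (fun g _ _ => mul_nonneg (ind_nonneg _) (by positivity))
    _ ≤ ∑ g ∈ W, 4 * ((((g.1 - β.1 : ℤ) : ℝ) ^ 2 + 1)⁻¹ * (((g.2.1 - β.2.1 : ℤ) : ℝ) ^ 2 + 1)⁻¹) :=
        sum_le_sum fun g _ => pt g
    _ = 8 * ((∑ x ∈ Icc (β.1 - N) (β.1 + N), (((x - β.1 : ℤ) : ℝ) ^ 2 + 1)⁻¹) *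
          (∑ y ∈ Icc (β.2.1 - N) (β.2.1 + N), (((y - β.2.1 : ℤ) : ℝ) ^ 2 + 1)⁻¹)) := by
        rw [← mul_sum, hW, sum_product, sum_mul_sum]
        simp only [sum_product, sum_const, Finset.card_univ, Fintype.card_bool, nsmul_eq_mul]
        rw [mul_sum, mul_sum]
        apply sum_congr rfl
        intro x _
        rw [mul_sum, mul_sum]
        apply sum_congr rfl
        intro y _
        push_cast
        ring
    _ ≤ 8 * (5 * 5) := by
        refine mul_le_mul_of_nonneg_left ?_ (by norm_num)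
        exact mul_le_mul (one N _) (one N _) (sum_nonneg fun _ _ => by positivity) (by norm_num)
    _ = 200 := by norm_num

end Pool.Agent.W810.KP.PS
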